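import Mathlib

/-!
# Zero positions of generalized Baum-Sweet sequences

`Good r n` says that every maximal block of zeros in the binary expansion of `n` has length
divisible by `r`. We collect the combinatorial facts that are needed to show that the increasing
enumeration of the integers that are not `Good r` is not `k`-regular for any `k`.
-/

set_option autoImplicit false

namespace Pool.Agent.R518.BaumSweet

/-- Every maximal block of zeros of the binary expansion of `n` has length divisible by `r`. The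
block consisting of the binary digits of `n` at the places `i, i + 1, ..., j - 1` is a maximal block
of zeros if these digits are `0`, the digit at place `j` is `1`, and either `i = 0` or the digit at
place `i - 1` is `1`. -/
def Good (r n : ℕ) : Prop :=
  ∀ i j : ℕ, i < j → (∀ k, i ≤ k → k < j → n.testBit k = false) → n.testBit j = true →
    (i = 0 ∨ n.testBit (i - 1) = true) → r ∣ j - i

/-- The strictly increasing enumeration of the natural numbers that are not `Good r`. -/
noncomputable def zeroPos (r n : ℕ) : ℕ := Nat.nth (fun m => ¬ Good r m) n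

/-! ## Blocks of length one -/

theorem bad_of_101 {r m i : ℕ} (hr : 2 ≤ r) (h0 : m.testBit i = false)
    (h1 : m.testBit (i + 1) = true) (h2 : i = 0 ∨ m.testBit (i - 1) = true) : ¬ Good r m := by
  intro h
  have := h i (i + 1) (Nat.lt_succ_self i) (fun k hk1 hk2 => by
    have : k = i := by omega
    rw [this]; exact h0) h1 h2
  have h3 : i + 1 - i = 1 := by omega
  rw [h3] at this
  have := Nat.le_of_dvd one_pos this
  omega

/-- Numbers that are `2` modulo `4` are not good. -/
theorem bad_two_mod_four {r : ℕ} (hr : 2 ≤ r) (n : ℕ) : ¬ Good r (4 * n + 2) := by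
  refine bad_of_101 (i := 0) hr ?_ ?_ (Or.inl rfl)
  · rw [Nat.testBit_zero]
    have : (4 * n + 2) % 2 = 0 := by omega
    simp [this]
  · rw [Nat.testBit_succ, Nat.testBit_zero]
    have : (4 * n + 2) / 2 % 2 = 1 := by omega
    exact decide_eq_true this

theorem infinite_bad {r : ℕ} (hr : 2 ≤ r) : (Set.ofPred fun m => ¬ Good r m).Infinite := by
  have hinj : Function.Injective (fun n : ℕ => 4 * n + 2) := by
    intro a b h
    have : 4 * a + 2 = 4 * b + 2 := h
    omega
  refine (Set.infinite_range_of_injective hinj).mono ?_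
  rintro _ ⟨n, rfl⟩
  exact bad_two_mod_four hr n

/-! ## The good number `l` and the gap above it -/

/-- `low r u = (2 ^ r + 1) * 2 ^ u - 1`, in binary a one, `r` zeros and `u` ones. -/
def low (r u : ℕ) : ℕ := 2 ^ (u + r) + (2 ^ u - 1)

theorem low_add_one (r u : ℕ) : low r u + 1 = 2 ^ (u + r) + 2 ^ u := by
  have := Nat.one_le_two_pow (n := u)
  unfold low
  omega

theorem testBit_low (r u k : ℕ) : (low r u).testBit k = (decide (k < u) || decide (k = u + r)) := by
  have h1 : 2 ^ u - 1 < 2 ^ u := by
    have := Nat.one_le_two_pow (n := u)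
    omega
  have h : low r u = 2 ^ u * 2 ^ r + (2 ^ u - 1) := by
    unfold low
    rw [pow_add]
  rw [h, Nat.testBit_two_pow_mul_add _ h1]
  by_cases hk : k < u
  · simp [hk, Nat.testBit_two_pow_sub_one]
  · rw [if_neg hk, Nat.testBit_two_pow]
    have : (r = k - u) ↔ (k = u + r) := by omega
    simp only [hk, decide_false, Bool.false_or, decide_eq_decide]
    omega

theorem good_low {r : ℕ} (u : ℕ) : Good r (low r u) := by
  intro i j hij h0 h1 h2
  rw [testBit_low] at h1
  have hi := h0 i le_rfl hij
  rw [testBit_low] at hi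
  simp only [Bool.or_eq_true, decide_eq_true_eq, Bool.or_eq_false_iff, decide_eq_false_iff_not]
    at h1 hi
  have hju : j = u + r := by omega
  have hiu : i = u := by
    rcases h2 with h2 | h2
    · omega
    · rw [testBit_low] at h2
      simp only [Bool.or_eq_true, decide_eq_true_eq] at h2
      omega
  rw [hju, hiu]
  simp

/-- There is no good number strictly between `low r u` and `2 ^ (u + r) + 2 ^ (u + r - 1)`. -/
theorem bad_gap {r u m : ℕ} (hr : 2 ≤ r) (h1 : low r u < m)
    (h2 : m < 2 ^ (u + r) + 2 ^ (u + r - 1)) : ¬ Good r m := by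
  have hlow := low_add_one r u
  have hone := Nat.one_le_two_pow (n := u)
  obtain ⟨y, rfl⟩ : ∃ y, m = 2 ^ (u + r) + y := ⟨m - 2 ^ (u + r), by omega⟩
  have hy1 : 2 ^ u ≤ y := by omega
  have hy2 : y < 2 ^ (u + r - 1) := by omega
  have hy0 : y ≠ 0 := by
    have := Nat.one_le_two_pow (n := u)
    omega
  have hlt : y < 2 ^ (u + r) := lt_of_lt_of_le hy2 (Nat.pow_le_pow_right (by norm_num) (by omega))
  have hq1 : y.log2 < u + r - 1 := (Nat.log2_lt hy0).2 hy2
  have hq2 : u ≤ y.log2 := by
    by_contra hcon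
    have := (Nat.log2_lt hy0).1 (not_le.1 hcon)
    omega
  intro h
  have hbit : ∀ k, k < u + r → (2 ^ (u + r) + y).testBit k = y.testBit k := fun k hk =>
    Nat.testBit_two_pow_add_gt hk y
  have := h (y.log2 + 1) (u + r) (by omega) (fun k hk1 hk2 => by
      rw [hbit k hk2]
      exact Nat.testBit_lt_two_pow ((Nat.log2_lt hy0).1 (by omega)))
    (by rw [Nat.testBit_two_pow_add_eq, Nat.testBit_lt_two_pow hlt]; rfl)
    (Or.inr (by
      rw [Nat.add_sub_cancel, hbit _ (by omega)]
      exact Nat.testBit_log2 hy0))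
  have := Nat.le_of_dvd (by omega) this
  omega

/-! ## Counting good numbers -/

open Classical in
/-- the number of good numbers below `m` -/
noncomputable def cnt (r m : ℕ) : ℕ := Nat.count (fun m => Good r m) m

open Classical in
theorem cnt_add_count (r m : ℕ) : cnt r m + Nat.count (fun m => ¬ Good r m) m = m := by
  unfold cnt
  induction m with
  | zero => simp
  | succ m ih =>
    rw [Nat.count_succ, Nat.count_succ]
    by_cases h : Good r m <;> simp [h] <;> omega

open Classical in
theorem cnt_mono (r : ℕ) : Monotone (cnt r) := Nat.count_monotone _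

open Classical in
theorem cnt_succ_of_good {r m : ℕ} (h : Good r m) : cnt r (m + 1) = cnt r m + 1 := by
  unfold cnt
  rw [Nat.count_succ, if_pos h]

open Classical in
theorem cnt_eq_of_bad {r a b : ℕ} (hab : a ≤ b) (h : ∀ m, a ≤ m → m < b → ¬ Good r m) :
    cnt r b = cnt r a := by
  unfold cnt
  induction b, hab using Nat.le_induction with
  | base => rfl
  | succ b hb ih =>
    rw [Nat.count_succ, if_neg (h b hb (Nat.lt_succ_self b)), add_zero]
    exact ih fun m h1 h2 => h m h1 (by omega)

theorem cnt_gap {r : ℕ} (hr : 2 ≤ r) (u : ℕ) :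
    cnt r (2 ^ (u + r) + 2 ^ (u + r - 1)) = cnt r (low r u) + 1 := by
  rw [← cnt_succ_of_good (good_low u)]
  refine cnt_eq_of_bad ?_ fun m h1 h2 => bad_gap hr (by omega) h2
  rw [low_add_one]
  have : 2 ^ u ≤ 2 ^ (u + r - 1) := Nat.pow_le_pow_right (by norm_num) (by omega)
  omega

theorem cnt_zeroPos {r : ℕ} (hr : 2 ≤ r) (n : ℕ) : cnt r (zeroPos r n) + n = zeroPos r n := by
  classical
  have h := Nat.count_nth_of_infinite (infinite_bad hr) n
  have h2 := cnt_add_count r (zeroPos r n)
  have h3 : Nat.count (fun m => ¬ Good r m) (zeroPos r n) = n := by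
    unfold zeroPos
    convert h
  rw [h3] at h2
  exact h2

/-- `zeroPos r n < m` if and only if `n + cnt r m < m`. -/
theorem zeroPos_lt_iff {r : ℕ} (hr : 2 ≤ r) (n m : ℕ) : zeroPos r n < m ↔ n + cnt r m < m := by
  classical
  have h := Nat.lt_nth_iff_count_lt (infinite_bad hr) (a := n) (b := m)
  have h2 := cnt_add_count r m
  have h3 : zeroPos r n < m ↔ n < Nat.count (fun m => ¬ Good r m) m := by
    unfold zeroPos
    rw [← h]
  rw [h3]
  omega

theorem zeroPos_strictMono {r : ℕ} (hr : 2 ≤ r) : StrictMono (zeroPos r) :=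
  Nat.nth_strictMono (infinite_bad hr)

/-- If there is a good number `l` with `zeroPos r A < l < zeroPos r B`, then the enumeration makes a
jump between `A` and `B`. -/
theorem jump {r A B l : ℕ} (hr : 2 ≤ r) (hl : Good r l) (h1 : A + cnt r l < l) (h2 : l ≤ B) :
    B - A < zeroPos r B - zeroPos r A := by
  have hA : zeroPos r A < l := (zeroPos_lt_iff hr A l).2 h1
  have hB : l + 1 ≤ zeroPos r B := by
    by_contra hcon
    have := (zeroPos_lt_iff hr B (l + 1)).1 (not_le.1 hcon)
    rw [cnt_succ_of_good hl] at this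
    omega
  have e1 := cnt_zeroPos hr A
  have e2 := cnt_zeroPos hr B
  have e3 : cnt r (zeroPos r A) ≤ cnt r l := cnt_mono r hA.le
  have e4 : cnt r (l + 1) ≤ cnt r (zeroPos r B) := cnt_mono r hB
  rw [cnt_succ_of_good hl] at e4
  omega

/-- If there is no good number between `zeroPos r A` and `zeroPos r B`, then there is no jump. -/
theorem noJump {r A B u : ℕ} (hr : 2 ≤ r) (hAB : A ≤ B) (h1 : low r u + 1 ≤ A + cnt r (low r u) + 1)
    (h2 : B + cnt r (low r u) + 1 < 2 ^ (u + r) + 2 ^ (u + r - 1)) :
    zeroPos r B - zeroPos r A = B - A := by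
  have hA : low r u + 1 ≤ zeroPos r A := by
    by_contra hcon
    have := (zeroPos_lt_iff hr A (low r u + 1)).1 (not_le.1 hcon)
    rw [cnt_succ_of_good (good_low u)] at this
    omega
  have hB : zeroPos r B < 2 ^ (u + r) + 2 ^ (u + r - 1) := by
    rw [zeroPos_lt_iff hr, cnt_gap hr]
    omega
  have e1 := cnt_zeroPos hr A
  have e2 := cnt_zeroPos hr B
  have e3 : cnt r (zeroPos r B) = cnt r (zeroPos r A) := by
    refine cnt_eq_of_bad ((zeroPos_strictMono hr).monotone hAB) fun m h3 h4 => ?_
    exact bad_gap (u := u) hr (by omega) (by omega)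
  omega

/-! ## The good numbers have density zero -/

/-- no digit of `m` in base `8` equals `5` -/
def NoFive (m : ℕ) : Prop := ∀ i, m / 8 ^ i % 8 ≠ 5

theorem testBit_div_mod (m i b : ℕ) (hb : b < 3) :
    m.testBit (3 * i + b) = (m / 8 ^ i % 8).testBit b := by
  have h8 : (8 : ℕ) = 2 ^ 3 := by norm_num
  rw [h8, ← pow_mul, Nat.testBit_mod_two_pow, Nat.testBit_div_two_pow]
  simp [hb, add_comm]

theorem noFive_of_good {r m : ℕ} (hr : 2 ≤ r) (h : Good r m) : NoFive m := by
  intro i hi
  have e0 := testBit_div_mod m i 0 (by norm_num)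
  have e1 := testBit_div_mod m i 1 (by norm_num)
  have e2 := testBit_div_mod m i 2 (by norm_num)
  rw [hi] at e0 e1 e2
  rw [add_zero] at e0
  have e0' : m.testBit (3 * i) = true := by rw [e0]; decide
  have e1' : m.testBit (3 * i + 1) = false := by rw [e1]; decide
  have e2' : m.testBit (3 * i + 1 + 1) = true := by rw [e2]; decide
  exact bad_of_101 (i := 3 * i + 1) hr e1' e2' (Or.inr (by rw [Nat.add_sub_cancel]; exact e0')) h

open Classical in
theorem card_noFive (q : ℕ) : ((Finset.range (8 ^ q)).filter NoFive).card ≤ 7 ^ q := by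
  induction q with
  | zero => exact (Finset.card_filter_le _ _).trans (by simp)
  | succ q ih =>
    have hmaps : ∀ m ∈ (Finset.range (8 ^ (q + 1))).filter NoFive,
        (m / 8, m % 8) ∈ ((Finset.range (8 ^ q)).filter NoFive) ×ˢ ((Finset.range 8).erase 5) := by
      intro m hm
      rw [Finset.mem_filter, Finset.mem_range] at hm
      rw [Finset.mem_product, Finset.mem_filter, Finset.mem_range, Finset.mem_erase,
        Finset.mem_range]
      refine ⟨⟨?_, ?_⟩, ?_, Nat.mod_lt _ (by norm_num)⟩
      · have := hm.1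
        rw [pow_succ] at this
        exact Nat.div_lt_of_lt_mul (by rwa [mul_comm])
      · intro i
        have := hm.2 (i + 1)
        rwa [pow_succ', ← Nat.div_div_eq_div_mul] at this
      · have := hm.2 0
        simpa using this
    have hinj : Set.InjOn (fun m : ℕ => (m / 8, m % 8))
        ((Finset.range (8 ^ (q + 1))).filter NoFive : Set ℕ) := by
      intro a _ b _ hab
      simp only [Prod.mk.injEq] at hab
      omega
    have := Finset.card_le_card_of_injOn _ hmaps hinj
    rw [Finset.card_product, Finset.card_erase_of_mem (by simp), Finset.card_range] at this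
    calc _ ≤ _ := this
      _ ≤ 7 ^ q * (8 - 1) := Nat.mul_le_mul_right _ ih
      _ = 7 ^ (q + 1) := by ring

theorem cnt_pow_le {r : ℕ} (hr : 2 ≤ r) (q : ℕ) : cnt r (8 ^ q) ≤ 7 ^ q := by
  classical
  refine le_trans ?_ (card_noFive q)
  unfold cnt
  rw [Nat.count_eq_card_filter_range]
  refine Finset.card_le_card fun m hm => ?_
  rw [Finset.mem_filter] at hm ⊢
  exact ⟨hm.1, noFive_of_good hr hm.2⟩

/-- The good numbers have density zero. -/
theorem density_zero {r : ℕ} (hr : 2 ≤ r) (K : ℕ) : ∃ m₀ : ℕ, ∀ m ≥ m₀, K * cnt r m ≤ m := by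
  obtain ⟨q₀, hq₀⟩ : ∃ q₀ : ℕ, ∀ q ≥ q₀, 7 * K * 7 ^ q ≤ 8 ^ q := by
    have h := tendsto_pow_atTop_nhds_zero_of_lt_one (r := (7 / 8 : ℝ)) (by norm_num) (by norm_num)
    have h2 : ∀ᶠ q : ℕ in Filter.atTop, (7 / 8 : ℝ) ^ q < 1 / (7 * K + 1) :=
      h.eventually (gt_mem_nhds (by positivity))
    obtain ⟨q₀, hq₀⟩ := Filter.eventually_atTop.1 h2
    refine ⟨q₀, fun q hq => ?_⟩
    have h3 := hq₀ q hq
    rw [div_pow, div_lt_div_iff₀ (by positivity) (by positivity)] at h3
    have h4 : (7 * K * 7 ^ q : ℝ) ≤ 8 ^ q := by nlinarith [pow_pos (show (0 : ℝ) < 7 by norm_num) q]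
    exact_mod_cast h4
  refine ⟨8 ^ q₀ , fun m hm => ?_⟩
  have hm0 : m ≠ 0 := by
    have := Nat.one_le_pow q₀ 8 (by norm_num)
    omega
  have h1 : 8 ^ (Nat.log 8 m) ≤ m := Nat.pow_log_le_self 8 hm0
  have h2 : m < 8 ^ (Nat.log 8 m + 1) := Nat.lt_pow_succ_log_self (by norm_num) m
  have h3 : q₀ ≤ Nat.log 8 m := (Nat.le_log_iff_pow_le (by norm_num) hm0).2 hm
  calc K * cnt r m ≤ K * cnt r (8 ^ (Nat.log 8 m + 1)) :=
        Nat.mul_le_mul_left _ (cnt_mono r h2.le)
    _ ≤ K * 7 ^ (Nat.log 8 m + 1) := Nat.mul_le_mul_left _ (cnt_pow_le hr _)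
    _ = 7 * K * 7 ^ (Nat.log 8 m) := by ring
    _ ≤ 8 ^ (Nat.log 8 m) := hq₀ _ h3
    _ ≤ m := h1

/-- There are arbitrarily many good numbers. -/
theorem cnt_low_ge (r u : ℕ) : u ≤ cnt r (low r u) := by
  induction u with
  | zero => simp
  | succ u ih =>
    have h1 : low r u + 1 ≤ low r (u + 1) := by
      have := low_add_one r (u + 1)
      have h2 := low_add_one r u
      have h3 : 2 ^ (u + 1 + r) = 2 * 2 ^ (u + r) := by ring
      have h4 : 2 ^ (u + 1) = 2 * 2 ^ u := by ring
      have h5 := Nat.one_le_two_pow (n := u)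
      omega
    have h2 := cnt_mono r h1
    rw [cnt_succ_of_good (good_low u)] at h2
    omega

end Pool.Agent.R518.BaumSweet
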