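import Pool.Agent.R518.BaumSweetReg

/-!
# The zero positions of a generalized Baum-Sweet sequence are not `k`-regular: other bases
-/

set_option autoImplicit false

namespace Pool.Agent.R518.BaumSweet

theorem contra_pair {r k a a' N : ℕ} (hr : 2 ≤ r) (hk : 2 ≤ k) (hk2 : ∀ s : ℕ, k ≠ 2 ^ s)
    (haa : a < a') (ha' : a' ≤ a + N) (hN : 20 * (4 * N + 3) ≤ a)
    (h : ∀ t : ℕ, zeroPos r (k ^ t * (a + 1)) - zeroPos r (k ^ t * a) =
        zeroPos r (k ^ t * (a' + 1)) - zeroPos r (k ^ t * a')) : False := by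
  obtain ⟨u₁, hu₁⟩ := cnt_low_lt hr (4 * a + 3 + 2)
  have hr0 : (0 : ℝ) < (2 : ℝ) ^ r + 1 := by positivity
  obtain ⟨u, t, hu, ht, hlo, hhi⟩ := exists_approx hk hk2
    (α := ((a : ℝ) + 1 / 4) / (2 ^ r + 1)) (β := ((a : ℝ) + 3 / 4) / (2 ^ r + 1))
    (by positivity) (by
      apply div_lt_div_of_pos_right _ hr0
      linarith) (u₁ + 4)
  have hX := low_add_one r u
  have hX2 : 2 ^ (u + r) + 2 ^ u = (2 ^ r + 1) * 2 ^ u := by ring
  have h1 : (4 * a + 1) * k ^ t < 4 * ((2 ^ r + 1) * 2 ^ u) := by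
    rw [div_mul_eq_mul_div, div_lt_iff₀ hr0] at hlo
    have : ((4 * a + 1 : ℕ) : ℝ) * (k : ℝ) ^ t < 4 * (((2 : ℝ) ^ r + 1) * 2 ^ u) := by
      push_cast
      linarith
    exact_mod_cast this
  have h2 : 4 * ((2 ^ r + 1) * 2 ^ u) < (4 * a + 3) * k ^ t := by
    rw [div_mul_eq_mul_div, lt_div_iff₀ hr0] at hhi
    have : 4 * (((2 : ℝ) ^ r + 1) * 2 ^ u) < ((4 * a + 3 : ℕ) : ℝ) * (k : ℝ) ^ t := by
      push_cast
      linarith
    exact_mod_cast this
  rw [← hX2, ← hX] at h1 h2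
  set Q := k ^ t with hQ
  set X := low r u + 1 with hXdef
  set c := cnt r (low r u) with hc
  -- the size of `c`
  have hc1 : 2 ^ (4 * a + 3 + 2) * c < 2 ^ (u + r + 1) := hu₁ u (by omega)
  have hbig : 4 * (4 * a + 3) ≤ 2 ^ (4 * a + 3 + 2) := by
    have : 4 * a + 3 < 2 ^ (4 * a + 3) := Nat.lt_two_pow_self
    rw [pow_add]
    omega
  have hP : 2 ^ (u + r + 1) = 8 * 2 ^ (u + r - 2) := by
    rw [show u + r + 1 = (u + r - 2) + 3 by omega, pow_add]
    ring
  have hP4 : 2 ^ (u + r) = 4 * 2 ^ (u + r - 2) := by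
    rw [show u + r = (u + r - 2) + 2 by omega, pow_add]
    simp
    ring
  have hP2 : 2 ^ (u + r - 1) = 2 * 2 ^ (u + r - 2) := by
    rw [show u + r - 1 = (u + r - 2) + 1 by omega, pow_add]
    ring
  have hPu : 2 ^ u ≤ 2 ^ (u + r - 2) := Nat.pow_le_pow_right (by norm_num) (by omega)
  have hone := Nat.one_le_two_pow (n := u)
  have hP16 : 16 ≤ 2 ^ (u + r - 2) := by
    calc 16 = 2 ^ 4 := by norm_num
      _ ≤ 2 ^ (u + r - 2) := Nat.pow_le_pow_right (by norm_num) (by omega)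
  set P := 2 ^ (u + r - 2) with hPdef
  have hQ8 : 8 ≤ Q := by
    calc 8 = 2 ^ 3 := by norm_num
      _ ≤ 2 ^ t := Nat.pow_le_pow_right (by norm_num) (by omega)
      _ ≤ k ^ t := Nat.pow_le_pow_left hk t
  have hc2 : 4 * (4 * a + 3) * c < 8 * P := by
    rw [← hP]
    exact lt_of_le_of_lt (Nat.mul_le_mul_right c hbig) hc1
  have hXP : X ≤ 5 * P := by omega
  have hPX : 4 * P ≤ X := by omega
  have hc3 : 8 * c < Q := by
    have e2 : (4 * a + 3) * (8 * c) < (4 * a + 3) * Q := by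
      calc (4 * a + 3) * (8 * c) = 2 * (4 * (4 * a + 3) * c) := by ring
        _ < 2 * (8 * P) := by omega
        _ ≤ 4 * X := by omega
        _ < (4 * a + 3) * Q := h2
    exact Nat.lt_of_mul_lt_mul_left e2
  have hcP : 60 * c < P := by
    have e0 : 60 ≤ 4 * (4 * a + 3) := by omega
    have e3 : 480 * c ≤ 4 * (4 * a + 3) * c := Nat.mul_le_mul_right c (by omega)
    omega
  -- the jump at `a`
  have hj : k ^ t * (a + 1) - k ^ t * a < zeroPos r (k ^ t * (a + 1)) - zeroPos r (k ^ t * a) := by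
    refine jump (l := low r u) hr (good_low u) ?_ ?_
    · rw [← hQ, ← hc]
      have : (4 * a + 1) * Q < 4 * X := h1
      nlinarith
    · rw [← hQ]
      have : 4 * X < (4 * a + 3) * Q := h2
      nlinarith
  -- no jump at `a'`
  have hnj : zeroPos r (k ^ t * (a' + 1)) - zeroPos r (k ^ t * a') =
      k ^ t * (a' + 1) - k ^ t * a' := by
    refine noJump (u := u) hr (Nat.mul_le_mul_left _ (by omega)) ?_ ?_
    · rw [← hQ]
      have e1 : Q * (a + 1) ≤ Q * a' := Nat.mul_le_mul_left _ haa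
      nlinarith
    · rw [← hQ, ← hc, hP4, hP2]
      have e1 : Q * (a' + 1) ≤ Q * (a + N + 1) := Nat.mul_le_mul_left _ (by omega)
      have e2 : (80 * (4 * N + 3)) * Q ≤ (4 * a + 1) * Q := Nat.mul_le_mul_right _ (by omega)
      have e3 : 4 * (Q * (a + N + 1)) = (4 * a + 1) * Q + (4 * N + 3) * Q := by ring
      have e4 : 80 * ((4 * N + 3) * Q) ≤ (4 * a + 1) * Q := by
        calc 80 * ((4 * N + 3) * Q) = (80 * (4 * N + 3)) * Q := by ring
          _ ≤ _ := e2
      omega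
  have h3 := h t
  have h4 : k ^ t * (a + 1) - k ^ t * a = k ^ t := by
    rw [mul_add, mul_one, Nat.add_sub_cancel_left]
  have h5 : k ^ t * (a' + 1) - k ^ t * a' = k ^ t := by
    rw [mul_add, mul_one, Nat.add_sub_cancel_left]
  omega

theorem not_regular_other {r k : ℕ} (hr : 2 ≤ r) (hk : 2 ≤ k) (hk2 : ∀ s : ℕ, k ≠ 2 ^ s) :
    ¬ IsKRegular k (fun n => (zeroPos r n : ℤ)) := by
  intro hreg
  obtain ⟨N, F, hF⟩ := finite_classes hr hreg
  obtain ⟨i, j, hij, hFij⟩ := Fintype.exists_ne_map_eq_of_card_lt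
    (fun i : Fin (N + 1) => F (20 * (4 * N + 3) + i.1)) (by simp)
  have hij' : i.1 ≠ j.1 := fun h => hij (Fin.ext h)
  rcases Nat.lt_or_gt_of_ne hij' with hlt | hlt
  · exact contra_pair (N := N) hr hk hk2 (a := 20 * (4 * N + 3) + i.1)
      (a' := 20 * (4 * N + 3) + j.1) (by omega) (by omega) (by omega) (hF _ _ hFij)
  · exact contra_pair (N := N) hr hk hk2 (a := 20 * (4 * N + 3) + j.1)
      (a' := 20 * (4 * N + 3) + i.1) (by omega) (by omega) (by omega) (hF _ _ hFij.symm)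

/-- For `r ≥ 2` and `k ≥ 2` the increasing enumeration of the numbers that are not `Good r` is not
`k`-regular. -/
theorem not_regular {r k : ℕ} (hr : 2 ≤ r) (hk : 2 ≤ k) :
    ¬ IsKRegular k (fun n => (zeroPos r n : ℤ)) := by
  by_cases h : ∃ s : ℕ, k = 2 ^ s
  · obtain ⟨s, rfl⟩ := h
    refine not_regular_two_pow hr ?_
    rcases Nat.eq_zero_or_pos s with h0 | h0
    · rw [h0] at hk
      norm_num at hk
    · exact h0
  · push Not at h
    exact not_regular_other hr hk h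

end Pool.Agent.R518.BaumSweet
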