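import Pool.Agent.R518.BaumSweet

/-!
# The zero positions of a generalized Baum-Sweet sequence are not `k`-regular
-/

set_option autoImplicit false

namespace Pool.Agent.R518.BaumSweet

/-- The `k`-kernel of a sequence of integers. -/
def kKernel (k : ℕ) (u : ℕ → ℤ) : Set (ℕ → ℤ) :=
  {v | ∃ e j : ℕ, j < k ^ e ∧ v = fun n => u (k ^ e * n + j)}

/-- A sequence of integers is `k`-regular if the `ℤ`-module spanned by its `k`-kernel is finitely
generated. -/
def IsKRegular (k : ℕ) (u : ℕ → ℤ) : Prop := (Submodule.span ℤ (kKernel k u)).FG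

/-! ## Bounded sequences in a finitely generated module -/

/-- the elements of `V` vanishing at the places below `j` -/
def vanish (V : Submodule ℚ (ℕ → ℚ)) (j : ℕ) : Submodule ℚ V where
  carrier := {x | ∀ n < j, (x : ℕ → ℚ) n = 0}
  add_mem' := by
    intro a b ha hb n hn
    have h1 := ha n hn
    have h2 := hb n hn
    simp [h1, h2]
  zero_mem' := by
    intro n _
    rfl
  smul_mem' := by
    intro c x hx n hn
    have h1 := hx n hn
    simp [h1]

theorem finite_bounded (N : Submodule ℤ (ℕ → ℤ)) (hN : N.FG) (B : ℕ) :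
    {v : ℕ → ℤ | v ∈ N ∧ ∀ n, 0 ≤ v n ∧ v n ≤ B}.Finite := by
  classical
  obtain ⟨S, hS⟩ := hN
  set V : Submodule ℚ (ℕ → ℚ) :=
    Submodule.span ℚ ((fun (v : ℕ → ℤ) (n : ℕ) => (v n : ℚ)) '' (S : Set (ℕ → ℤ))) with hV
  have hfin : FiniteDimensional ℚ V :=
    FiniteDimensional.span_of_finite ℚ (S.finite_toSet.image _)
  have hcast : ∀ v ∈ N, (fun n => (v n : ℚ)) ∈ V := by
    intro v hv
    rw [← hS] at hv
    induction hv using Submodule.span_induction with
    | mem x hx => exact Submodule.subset_span ⟨x, hx, rfl⟩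
    | zero =>
      have : (fun n => (((0 : ℕ → ℤ) n : ℤ) : ℚ)) = 0 := by
        funext n
        simp
      rw [this]
      exact V.zero_mem
    | add x y _ _ hx hy =>
      have : (fun n => (((x + y) n : ℤ) : ℚ)) = (fun n => (x n : ℚ)) + fun n => (y n : ℚ) := by
        funext n
        simp
      rw [this]
      exact V.add_mem hx hy
    | smul a x _ hx =>
      have : (fun n => (((a • x) n : ℤ) : ℚ)) = (a : ℚ) • fun n => (x n : ℚ) := by
        funext n
        simp
      rw [this]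
      exact V.smul_mem _ hx
  have hanti : ∀ i j : ℕ, i ≤ j → vanish V j ≤ vanish V i := by
    intro i j hij x hx n hn
    exact hx n (by omega)
  obtain ⟨j, hj⟩ := IsArtinian.monotone_stabilizes (R := ℚ) (M := V)
    ⟨fun i => OrderDual.toDual (vanish V i), fun i j hij => hanti i j hij⟩
  have hj' : ∀ m, j ≤ m → vanish V j = vanish V m := fun m hm => OrderDual.toDual.injective (hj m hm)
  have hzero : ∀ x ∈ V, (∀ n < j, x n = 0) → x = 0 := by
    intro x hx h0
    funext n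
    have h1 : (⟨x, hx⟩ : V) ∈ vanish V j := h0
    rw [hj' (j + n + 1) (by omega)] at h1
    exact h1 n (by omega)
  have : Finite {v : ℕ → ℤ | v ∈ N ∧ ∀ n, 0 ≤ v n ∧ v n ≤ B} := by
    refine Finite.of_injective (β := Fin j → Fin (B + 1))
      (fun v i => ⟨(v.1 i).toNat, by
        have := (v.2.2 i)
        omega⟩) ?_
    intro v w hvw
    apply Subtype.ext
    have h1 : ∀ n < j, v.1 n = w.1 n := by
      intro n hn
      have := congrFun hvw ⟨n, hn⟩
      simp only [Fin.mk.injEq] at this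
      have a1 := v.2.2 n
      have a2 := w.2.2 n
      omega
    have h2 := hcast (v.1 - w.1) (N.sub_mem v.2.1 w.2.1)
    have h3 := hzero _ h2 (fun n hn => by simp [h1 n hn])
    funext n
    have h4 := congrFun h3 n
    simp only [Pi.sub_apply, Int.cast_sub, Pi.zero_apply] at h4
    have h5 : (v.1 n : ℚ) = w.1 n := by linarith
    exact_mod_cast h5
  exact Set.toFinite _

/-! ## Finitely many classes of prefixes -/

theorem zeroPos_succ_le {r : ℕ} (hr : 2 ≤ r) (n : ℕ) : zeroPos r (n + 1) ≤ zeroPos r n + 4 := by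
  classical
  obtain ⟨b, hb1, hb2, c, hc⟩ : ∃ b, zeroPos r n < b ∧ b ≤ zeroPos r n + 4 ∧ ∃ c, b = 4 * c + 2 :=
    ⟨4 * ((zeroPos r n + 2) / 4) + 2, by omega, by omega, _, rfl⟩
  have hbad : ¬ Good r b := by
    rw [hc]
    exact bad_two_mod_four hr c
  have h1 : n < Nat.count (fun m => ¬ Good r m) b :=
    (Nat.lt_nth_iff_count_lt (infinite_bad hr)).2 hb1
  have h2 : zeroPos r (Nat.count (fun m => ¬ Good r m) b) = b := Nat.nth_count hbad
  have h3 : zeroPos r (n + 1) ≤ zeroPos r (Nat.count (fun m => ¬ Good r m) b) :=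
    (zeroPos_strictMono hr).monotone h1
  omega

/-- If the enumeration of the bad numbers is `k`-regular, then there are only finitely many types of
prefixes `a`. -/
theorem finite_classes {r k : ℕ} (hr : 2 ≤ r)
    (hreg : IsKRegular k (fun n => (zeroPos r n : ℤ))) :
    ∃ (N : ℕ) (F : ℕ → Fin N), ∀ a a' : ℕ, F a = F a' → ∀ t : ℕ,
      zeroPos r (k ^ t * (a + 1)) - zeroPos r (k ^ t * a) =
        zeroPos r (k ^ t * (a' + 1)) - zeroPos r (k ^ t * a') := by
  classical
  set u : ℕ → ℤ := fun n => (zeroPos r n : ℤ) with hu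
  set M := Submodule.span ℤ (kKernel k u) with hM
  set S : (ℕ → ℤ) →ₗ[ℤ] (ℕ → ℤ) := LinearMap.funLeft ℤ ℤ (fun n : ℕ => n + 1) with hS
  set W : Set (ℕ → ℤ) := {v : ℕ → ℤ | v ∈ M ⊔ M.map S ∧ ∀ n, 0 ≤ v n ∧ v n ≤ (4 : ℕ)} with hW
  have hfin : W.Finite := finite_bounded _ (hreg.sup (hreg.map S)) 4
  have : Finite W := hfin
  have hmem : ∀ t j : ℕ, j < k ^ t → (fun n => u (k ^ t * n + (j + 1)) - u (k ^ t * n + j)) ∈ W := by
    intro t j hj
    refine ⟨?_, ?_⟩
    · have h1 : (fun n => u (k ^ t * n + j)) ∈ M ⊔ M.map S :=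
        Submodule.mem_sup_left (Submodule.subset_span ⟨t, j, hj, rfl⟩)
      have h2 : (fun n => u (k ^ t * n + (j + 1))) ∈ M ⊔ M.map S := by
        rcases Nat.lt_or_ge (j + 1) (k ^ t) with h | h
        · exact Submodule.mem_sup_left (Submodule.subset_span ⟨t, j + 1, h, rfl⟩)
        · have hjk : j + 1 = k ^ t := by omega
          refine Submodule.mem_sup_right (Submodule.mem_map.2
            ⟨fun n => u (k ^ t * n + 0), Submodule.subset_span ⟨t, 0, by omega, rfl⟩, ?_⟩)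
          funext n
          rw [hS, LinearMap.funLeft_apply]
          show u (k ^ t * (n + 1) + 0) = _
          rw [hjk]
          congr 1
      exact Submodule.sub_mem _ h2 h1
    · intro n
      have h1 : zeroPos r (k ^ t * n + j) < zeroPos r (k ^ t * n + (j + 1)) :=
        zeroPos_strictMono hr (by omega)
      have h2 : zeroPos r (k ^ t * n + (j + 1)) ≤ zeroPos r (k ^ t * n + j) + 4 := by
        rw [← add_assoc]
        exact zeroPos_succ_le hr _
      simp only [hu]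
      constructor <;> push_cast <;> omega
  set G : ℕ → (W → Fin 5) := fun a w => ⟨(w.1 a).toNat, by
    have := w.2.2 a
    omega⟩ with hG
  obtain ⟨N, ⟨e⟩⟩ := Finite.exists_equiv_fin (W → Fin 5)
  refine ⟨N, fun a => e (G a), fun a a' haa t => ?_⟩
  have hGG : G a = G a' := e.injective haa
  have hval : ∀ w ∈ W, w a = w a' := by
    intro w hw
    have h1 := congrFun hGG ⟨w, hw⟩
    simp only [hG, Fin.mk.injEq] at h1
    have a1 := hw.2 a
    have a2 := hw.2 a'
    omega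
  have hsum : ∀ b : ℕ, (u (k ^ t * (b + 1)) - u (k ^ t * b)) =
      ∑ j ∈ Finset.range (k ^ t), (u (k ^ t * b + (j + 1)) - u (k ^ t * b + j)) := by
    intro b
    rw [Finset.sum_range_sub (fun j => u (k ^ t * b + j))]
    congr 2
  have hkey : u (k ^ t * (a + 1)) - u (k ^ t * a) = u (k ^ t * (a' + 1)) - u (k ^ t * a') := by
    rw [hsum a, hsum a']
    refine Finset.sum_congr rfl fun j hj => ?_
    exact hval _ (hmem t j (Finset.mem_range.1 hj))
  have m1 : zeroPos r (k ^ t * a) ≤ zeroPos r (k ^ t * (a + 1)) :=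
    (zeroPos_strictMono hr).monotone (Nat.mul_le_mul_left _ (by omega))
  have m2 : zeroPos r (k ^ t * a') ≤ zeroPos r (k ^ t * (a' + 1)) :=
    (zeroPos_strictMono hr).monotone (Nat.mul_le_mul_left _ (by omega))
  simp only [hu] at hkey
  omega

/-! ## Powers of two -/

theorem cnt_low_lt {r : ℕ} (hr : 2 ≤ r) (c : ℕ) :
    ∃ u₀ : ℕ, ∀ u ≥ u₀, 2 ^ c * cnt r (low r u) < 2 ^ (u + r + 1) := by
  obtain ⟨m₀, hm₀⟩ := density_zero hr (2 ^ c)
  refine ⟨m₀, fun u hu => ?_⟩
  have h1 : low r u + 1 = 2 ^ (u + r) + 2 ^ u := low_add_one r u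
  have h2 : u < 2 ^ u := Nat.lt_two_pow_self
  have h3 : 2 ^ u ≤ 2 ^ (u + r) := Nat.pow_le_pow_right (by norm_num) (by omega)
  have h4 := hm₀ (low r u) (by omega)
  have h5 : 2 ^ (u + r + 1) = 2 * 2 ^ (u + r) := by ring
  omega

theorem not_regular_two_pow {r s : ℕ} (hr : 2 ≤ r) (hs : 1 ≤ s) :
    ¬ IsKRegular (2 ^ s) (fun n => (zeroPos r n : ℤ)) := by
  intro hreg
  obtain ⟨N, F, hF⟩ := finite_classes hr hreg
  set f : ℕ → Fin N := fun j => F ((2 ^ r + 1) * 2 ^ j - 1) with hf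
  obtain ⟨y, hy⟩ := Finite.exists_infinite_fiber f
  have hinf : (f ⁻¹' {y}).Infinite := Set.infinite_coe_iff.1 hy
  obtain ⟨j₀, hj₀⟩ := hinf.nonempty
  -- a jump for `j₀`
  have hAB : ∀ j t : ℕ, (2 ^ s) ^ t * ((2 ^ r + 1) * 2 ^ j - 1 + 1) = low r (j + s * t) + 1 ∧
      (2 ^ s) ^ t * ((2 ^ r + 1) * 2 ^ j - 1) + 2 ^ (s * t) = low r (j + s * t) + 1 := by
    intro j t
    have h1 : 1 ≤ (2 ^ r + 1) * 2 ^ j := Nat.one_le_iff_ne_zero.2 (by positivity)
    have h2 : (2 ^ s) ^ t * ((2 ^ r + 1) * 2 ^ j) = low r (j + s * t) + 1 := by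
      rw [low_add_one, ← pow_mul]
      ring
    refine ⟨by rw [Nat.sub_add_cancel h1]; exact h2, ?_⟩
    rw [← h2]
    obtain ⟨z, hz⟩ : ∃ z, (2 ^ r + 1) * 2 ^ j = z + 1 := ⟨_, (Nat.sub_add_cancel h1).symm⟩
    rw [hz, Nat.add_sub_cancel, ← pow_mul]
    ring
  obtain ⟨u₁, hu₁⟩ := cnt_low_lt hr (r + j₀ + 2)
  set t := u₁ + 1 with ht
  have hjump : (2 ^ s) ^ t < zeroPos r ((2 ^ s) ^ t * ((2 ^ r + 1) * 2 ^ j₀ - 1 + 1)) -
      zeroPos r ((2 ^ s) ^ t * ((2 ^ r + 1) * 2 ^ j₀ - 1)) := by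
    obtain ⟨e1, e2⟩ := hAB j₀ t
    have hst : t ≤ s * t := Nat.le_mul_of_pos_left t (by omega)
    have h1 := hu₁ (j₀ + s * t) (by omega)
    have h2 : 2 ^ (j₀ + s * t + r + 1) = 2 ^ (r + j₀ + 1) * 2 ^ (s * t) := by ring
    have h3 : 2 ^ (r + j₀ + 2) = 2 ^ (r + j₀ + 1) * 2 := by ring
    rw [h2, h3, mul_assoc] at h1
    have h4 : 2 * cnt r (low r (j₀ + s * t)) < 2 ^ (s * t) :=
      Nat.lt_of_mul_lt_mul_left h1
    have h5 : 2 ≤ 2 ^ (s * t) := by
      calc 2 = 2 ^ 1 := by norm_num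
        _ ≤ 2 ^ (s * t) := Nat.pow_le_pow_right (by norm_num) (by omega)
    have := jump (r := r) (A := (2 ^ s) ^ t * ((2 ^ r + 1) * 2 ^ j₀ - 1))
      (B := (2 ^ s) ^ t * ((2 ^ r + 1) * 2 ^ j₀ - 1 + 1)) (l := low r (j₀ + s * t)) hr
      (good_low _) (by omega) (by omega)
    have e3 : (2 ^ s) ^ t = 2 ^ (s * t) := by rw [pow_mul]
    omega
  -- no jump for large `j`
  obtain ⟨u₂, hu₂⟩ := cnt_low_lt hr (r + 2)
  obtain ⟨j, hj, hj1⟩ := hinf.exists_gt (u₂ + 2 ^ (s * t) + 2)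
  have hnj : zeroPos r ((2 ^ s) ^ t * ((2 ^ r + 1) * 2 ^ j - 1 + 1)) -
      zeroPos r ((2 ^ s) ^ t * ((2 ^ r + 1) * 2 ^ j - 1)) = (2 ^ s) ^ t := by
    obtain ⟨e1, e2⟩ := hAB j t
    have e3 : (2 ^ s) ^ t = 2 ^ (s * t) := by rw [pow_mul]
    set u := j + s * t with hu
    have h1 := hu₂ u (by omega)
    have h2 : 2 ^ (u + r + 1) = 2 ^ (r + 1) * 2 ^ u := by ring
    have h3 : 2 ^ (r + 2) = 2 ^ (r + 1) * 2 := by ring
    rw [h2, h3, mul_assoc] at h1
    have h4 : 2 * cnt r (low r u) < 2 ^ u := Nat.lt_of_mul_lt_mul_left h1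
    have h5 := cnt_low_ge r u
    have h6 := low_add_one r u
    have h7 : 2 * 2 ^ u ≤ 2 ^ (u + r - 1) := by
      calc 2 * 2 ^ u = 2 ^ (u + 1) := by ring
        _ ≤ 2 ^ (u + r - 1) := Nat.pow_le_pow_right (by norm_num) (by omega)
    have h8 : 2 ≤ 2 ^ u := by
      calc 2 = 2 ^ 1 := by norm_num
        _ ≤ 2 ^ u := Nat.pow_le_pow_right (by norm_num) (by omega)
    have := noJump (r := r) (A := (2 ^ s) ^ t * ((2 ^ r + 1) * 2 ^ j - 1))
      (B := (2 ^ s) ^ t * ((2 ^ r + 1) * 2 ^ j - 1 + 1)) (u := u) hr (by omega) (by omega)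
      (by omega)
    omega
  have hsame : F ((2 ^ r + 1) * 2 ^ j₀ - 1) = F ((2 ^ r + 1) * 2 ^ j - 1) := by
    have a1 : f j₀ = y := hj₀
    have a2 : f j = y := hj
    rw [← a2] at a1
    exact a1
  have := hF _ _ hsame t
  omega

/-! ## Approximation by `2 ^ u / k ^ t` -/

theorem exists_approx {k : ℕ} (hk : 2 ≤ k) (hk2 : ∀ s : ℕ, k ≠ 2 ^ s) {α β : ℝ} (hα : 0 < α)
    (hαβ : α < β) (T₀ : ℕ) :
    ∃ u t : ℕ, T₀ ≤ u ∧ T₀ ≤ t ∧ α * (k : ℝ) ^ t < 2 ^ u ∧ (2 : ℝ) ^ u < β * (k : ℝ) ^ t := by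
  have hk0 : (0 : ℝ) < k := by
    have : 0 < k := by omega
    exact_mod_cast this
  have hβ : 0 < β := hα.trans hαβ
  have hl2 : 0 < Real.log 2 := Real.log_pos (by norm_num)
  have hlk : 0 < Real.log k := Real.log_pos (by
    have : (2 : ℝ) ≤ k := by exact_mod_cast hk
    linarith)
  set δ := Real.log β - Real.log α with hδ
  have hδ0 : 0 < δ := by
    have := Real.log_lt_log hα hαβ
    rw [hδ]
    linarith
  -- it suffices to control the logarithms
  suffices h : ∃ u t : ℕ, T₀ ≤ u ∧ T₀ ≤ t ∧ Real.log α < u * Real.log 2 - t * Real.log k ∧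
      u * Real.log 2 - t * Real.log k < Real.log β by
    obtain ⟨u, t, h1, h2, h3, h4⟩ := h
    refine ⟨u, t, h1, h2, ?_, ?_⟩
    · rw [← Real.log_lt_log_iff (by positivity) (by positivity), Real.log_mul hα.ne'
        (by positivity), Real.log_pow, Real.log_pow]
      linarith
    · rw [← Real.log_lt_log_iff (by positivity) (by positivity), Real.log_mul hβ.ne'
        (by positivity), Real.log_pow, Real.log_pow]
      linarith
  obtain ⟨n, hn⟩ := exists_nat_gt (Real.log 2 / δ)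
  obtain ⟨T, hT0, -, hT⟩ := Real.exists_nat_abs_mul_sub_round_le (Real.log k / Real.log 2)
    (n := n + 1) (by omega)
  set U : ℤ := round ((T : ℝ) * (Real.log k / Real.log 2)) with hU
  have hU0 : 0 ≤ U := by
    rw [hU, round_eq]
    apply Int.floor_nonneg.2
    positivity
  obtain ⟨U', hU'⟩ := Int.eq_ofNat_of_zero_le hU0
  set η : ℝ := U' * Real.log 2 - T * Real.log k with hη
  have hηne : η ≠ 0 := by
    intro h0
    have h1 : Real.log ((2 : ℝ) ^ U') = Real.log ((k : ℝ) ^ T) := by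
      rw [Real.log_pow, Real.log_pow]
      linarith
    have h2 : (2 : ℝ) ^ U' = (k : ℝ) ^ T :=
      Real.log_injOn_pos (Set.mem_Ioi.2 (by positivity)) (Set.mem_Ioi.2 (by positivity)) h1
    have h3 : 2 ^ U' = k ^ T := by exact_mod_cast h2
    have h4 : k ∣ 2 ^ U' := by
      rw [h3]
      exact dvd_pow_self k (by omega)
    obtain ⟨s, -, hs⟩ := (Nat.dvd_prime_pow Nat.prime_two).1 h4
    exact hk2 s hs
  have hηabs : |η| < δ := by
    have h1 : η = -(((T : ℝ) * (Real.log k / Real.log 2) - (U : ℝ)) * Real.log 2) := by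
      rw [hη, hU']
      push_cast
      field_simp
      ring
    rw [h1, abs_neg, abs_mul, abs_of_pos hl2]
    calc |(T : ℝ) * (Real.log k / Real.log 2) - (U : ℝ)| * Real.log 2
        ≤ (1 / ((n + 1 : ℕ) + 1 : ℝ)) * Real.log 2 := mul_le_mul_of_nonneg_right hT hl2.le
      _ < δ := by
          rw [div_lt_iff₀ hδ0] at hn
          rw [one_div, inv_mul_lt_iff₀ (by positivity)]
          push_cast
          nlinarith
  rcases lt_or_gt_of_ne hηne with hneg | hpos
  · -- negative step: start high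
    obtain ⟨u₀, hu₀⟩ := exists_nat_gt ((Real.log β + T₀ * Real.log k) / Real.log 2)
    rw [div_lt_iff₀ hl2] at hu₀
    set v₀ : ℝ := ((u₀ + T₀ : ℕ) : ℝ) * Real.log 2 - T₀ * Real.log k with hv₀
    have hv : Real.log β < v₀ := by
      rw [hv₀]
      push_cast
      have : 0 ≤ (T₀ : ℝ) * Real.log 2 := by positivity
      linarith
    set m : ℕ := ⌊(v₀ - Real.log β) / (-η)⌋₊ + 1 with hm
    have hm1 : (v₀ - Real.log β) / (-η) < m := by
      rw [hm]
      push_cast
      exact Nat.lt_floor_add_one _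
    have hm2 : (m : ℝ) ≤ (v₀ - Real.log β) / (-η) + 1 := by
      rw [hm]
      push_cast
      have := Nat.floor_le (a := (v₀ - Real.log β) / (-η)) (div_nonneg (by linarith) (by linarith))
      linarith
    have hη' : 0 < -η := by linarith
    rw [div_lt_iff₀ hη'] at hm1
    have hm3 : (m : ℝ) * (-η) ≤ (v₀ - Real.log β) + (-η) := by
      have := mul_le_mul_of_nonneg_right hm2 hη'.le
      rwa [add_mul, div_mul_cancel₀ _ hη'.ne', one_mul] at this
    have habs : -η < δ := by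
      rw [abs_of_neg hneg] at hηabs
      exact hηabs
    refine ⟨u₀ + T₀ + m * U', T₀ + m * T, by omega, by omega, ?_, ?_⟩
    · have e : ((u₀ + T₀ + m * U' : ℕ) : ℝ) * Real.log 2 - ((T₀ + m * T : ℕ) : ℝ) * Real.log k =
          v₀ + m * η := by
        rw [hv₀, hη]
        push_cast
        ring
      rw [e]
      nlinarith
    · have e : ((u₀ + T₀ + m * U' : ℕ) : ℝ) * Real.log 2 - ((T₀ + m * T : ℕ) : ℝ) * Real.log k =
          v₀ + m * η := by
        rw [hv₀, hη]
        push_cast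
        ring
      rw [e]
      nlinarith
  · -- positive step: start low
    obtain ⟨t₀, ht₀⟩ := exists_nat_gt ((T₀ * Real.log 2 - Real.log α) / Real.log k)
    rw [div_lt_iff₀ hlk] at ht₀
    set v₀ : ℝ := (T₀ : ℝ) * Real.log 2 - ((t₀ + T₀ : ℕ) : ℝ) * Real.log k with hv₀
    have hv : v₀ < Real.log α := by
      rw [hv₀]
      push_cast
      have : 0 ≤ (T₀ : ℝ) * Real.log k := by positivity
      linarith
    set m : ℕ := ⌊(Real.log α - v₀) / η⌋₊ + 1 with hm
    have hm1 : (Real.log α - v₀) / η < m := by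
      rw [hm]
      push_cast
      exact Nat.lt_floor_add_one _
    have hm2 : (m : ℝ) ≤ (Real.log α - v₀) / η + 1 := by
      rw [hm]
      push_cast
      have := Nat.floor_le (a := (Real.log α - v₀) / η) (div_nonneg (by linarith) (by linarith))
      linarith
    rw [div_lt_iff₀ hpos] at hm1
    have hm3 : (m : ℝ) * η ≤ (Real.log α - v₀) + η := by
      have := mul_le_mul_of_nonneg_right hm2 hpos.le
      rwa [add_mul, div_mul_cancel₀ _ hpos.ne', one_mul] at this
    have habs : η < δ := by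
      rw [abs_of_pos hpos] at hηabs
      exact hηabs
    refine ⟨T₀ + m * U', t₀ + T₀ + m * T, by omega, by omega, ?_, ?_⟩
    · have e : ((T₀ + m * U' : ℕ) : ℝ) * Real.log 2 - ((t₀ + T₀ + m * T : ℕ) : ℝ) * Real.log k =
          v₀ + m * η := by
        rw [hv₀, hη]
        push_cast
        ring
      rw [e]
      nlinarith
    · have e : ((T₀ + m * U' : ℕ) : ℝ) * Real.log 2 - ((t₀ + T₀ + m * T : ℕ) : ℝ) * Real.log k =
          v₀ + m * η := by
        rw [hv₀, hη]
        push_cast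
        ring
      rw [e]
      nlinarith

end Pool.Agent.R518.BaumSweet
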