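import Mathlib

/-! Prime counts of the blocks of length 14 and 286. -/

set_option autoImplicit false

namespace Pool.Agent.R518.Blocks286

open Finset

/-- number of `x ∈ (a, a + l]` coprime to `P` -/
def cop (P a : ℕ) : ℕ → ℕ
  | 0 => 0
  | l + 1 => cop P a l + (if Nat.gcd (a + l + 1) P = 1 then 1 else 0)

theorem cop_eq (P a l : ℕ) (h : ∀ x, a < x → x ≤ a + l → (x.Prime ↔ Nat.gcd x P = 1)) :
    Nat.primeCounting (a + l) = Nat.primeCounting a + cop P a l := by
  induction l with
  | zero => rfl
  | succ l ih =>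
    have h1 := ih (fun x h1 h2 => h x h1 (by omega))
    have h2 : Nat.primeCounting (a + (l + 1)) =
        Nat.primeCounting (a + l) + if (a + l + 1).Prime then 1 else 0 := by
      unfold Nat.primeCounting Nat.primeCounting'
      rw [show a + (l + 1) + 1 = (a + l + 1) + 1 by ring, Nat.count_succ]
    rw [h2, h1]
    have h3 := h (a + l + 1) (by omega) (by omega)
    simp only [cop]
    by_cases h4 : (a + l + 1).Prime
    · rw [if_pos h4, if_pos (h3.1 h4)]; ring
    · rw [if_neg h4, if_neg (fun h5 => h4 (h3.2 h5))]; ring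

/-- for `B < x < (B + 1) ^ 2`: `x` is prime iff it is coprime to the product of the primes up to `B` -/
theorem prime_iff (B x : ℕ) (h1 : B < x) (h2 : x < (B + 1) ^ 2) :
    x.Prime ↔ Nat.gcd x (primorial B) = 1 := by
  constructor
  · intro hx
    rw [← Nat.coprime_iff_gcd_eq_one]
    unfold primorial
    refine Nat.Coprime.prod_right fun p hp => ?_
    rw [mem_filter, mem_range] at hp
    exact (Nat.coprime_primes hx hp.2).2 (by omega)
  · intro hg
    by_contra hx
    have hx2 : 2 ≤ x := by
      by_contra h
      have : x = 1 := by omega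
      have hB : B = 0 := by omega
      subst this hB
      norm_num at h2
    have hx1 : x ≠ 1 := by omega
    have hm := Nat.minFac_prime hx1
    have hle : x.minFac ^ 2 ≤ x := Nat.minFac_sq_le_self (by omega) hx
    have hB : x.minFac ≤ B := by
      by_contra h
      have : (B + 1) ^ 2 ≤ x.minFac ^ 2 := Nat.pow_le_pow_left (by omega) 2
      omega
    have hd : x.minFac ∣ primorial B := by
      unfold primorial
      exact dvd_prod_of_mem _ (by rw [mem_filter, mem_range]; exact ⟨by omega, hm⟩)
    have := Nat.dvd_gcd (Nat.minFac_dvd x) hd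
    rw [hg] at this
    exact hm.one_lt.ne' (Nat.dvd_one.1 this)

theorem block (n P : ℕ) (hP : primorial n = P) (k : ℕ) (h1 : 1 ≤ k) (h2 : k < n) :
    Nat.primeCounting ((k + 1) * n) - Nat.primeCounting (k * n) = cop P (k * n) n := by
  have h := cop_eq P (k * n) n (fun x hx1 hx2 => by
    rw [← hP]
    refine prime_iff n x ?_ ?_
    · nlinarith
    · have : (k + 1) * n ≤ n * n := Nat.mul_le_mul_right n h2
      nlinarith)
  rw [show (k + 1) * n = k * n + n by ring, h]
  omega

/-- if the counts of the blocks are as computed, there is no admissible `k` -/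
theorem none_of (n P : ℕ) (hn : 1 < n) (hP : primorial n = P)
    (h1 : Nat.count Nat.Prime (n + 1) ≠ cop P n n)
    (h2 : ∀ k ∈ Finset.Ico 2 n, (2 * k + 1).Prime → cop P ((k - 1) * n) n ≠ cop P (k * n) n) :
    ¬ ∃ k : ℕ, 1 ≤ k ∧ k < n ∧ (2 * k + 1).Prime ∧
      Nat.primeCounting (k * n) - Nat.primeCounting ((k - 1) * n) =
        Nat.primeCounting ((k + 1) * n) - Nat.primeCounting (k * n) := by
  rintro ⟨k, k1, k2, k3, k4⟩
  rcases Nat.lt_or_ge k 2 with hk | hk
  · have hk1 : k = 1 := by omega
    subst hk1
    rw [block n P hP 1 le_rfl hn, one_mul, Nat.sub_self, zero_mul] at k4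
    have : Nat.primeCounting n - Nat.primeCounting 0 = Nat.count Nat.Prime (n + 1) := by
      have h0 : Nat.primeCounting 0 = 0 := rfl
      rw [h0]
      rfl
    exact h1 (this ▸ k4)
  · rw [block n P hP k k1 k2] at k4
    have e2 := block n P hP (k - 1) (by omega) (by omega)
    rw [show k - 1 + 1 = k by omega] at e2
    rw [e2] at k4
    exact h2 k (Finset.mem_Ico.2 ⟨hk, k2⟩) k3 k4

end Pool.Agent.R518.Blocks286
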