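import Mathlib
import Pool.Agent.H442R2.EHI.PntErr

/-!
The prime number theorem with a strong error term, applied to the second differences of `π`.
-/

set_option autoImplicit false

open Finset Filter

namespace Pool.Agent.R518.Drift

open Pool.Agent.H442R2.EHI (lis)

theorem pc_eq (y : ℕ) :
    (Nat.primeCounting y : ℝ) = (((Icc 1 y).filter (fun p : ℕ => p.Prime)).card : ℝ) := by
  unfold Nat.primeCounting Nat.primeCounting'
  rw [Nat.count_eq_card_filter_range]
  congr 2
  ext p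
  simp only [mem_filter, mem_range, mem_Icc]
  constructor
  · rintro ⟨h1, h2⟩
    exact ⟨⟨h2.one_lt.le, by omega⟩, h2⟩
  · rintro ⟨h1, h2⟩
    exact ⟨by omega, h2⟩

theorem lis_eq (y : ℕ) : lis y = ∑ m ∈ range (y + 1), 1 / Real.log m := by
  unfold Pool.Agent.H442R2.EHI.lis
  refine Finset.sum_subset (fun m hm => ?_) (fun m hm hm' => ?_)
  · rw [mem_Icc] at hm; rw [mem_range]; omega
  · rw [mem_range] at hm
    rw [mem_Icc] at hm'
    have : m = 0 ∨ m = 1 := by omega
    rcases this with rfl | rfl <;> simp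

theorem lis_nonneg (y : ℕ) : 0 ≤ lis y := by
  unfold Pool.Agent.H442R2.EHI.lis
  refine Finset.sum_nonneg fun m hm => ?_
  rw [mem_Icc] at hm
  have : (1 : ℝ) ≤ m := by exact_mod_cast (by omega : 1 ≤ m)
  exact div_nonneg zero_le_one (Real.log_nonneg this)

theorem lis_le (y : ℕ) : lis y ≤ 2 * y := by
  unfold Pool.Agent.H442R2.EHI.lis
  calc ∑ m ∈ Icc 2 y, 1 / Real.log m ≤ ∑ m ∈ Icc 2 y, (2 : ℝ) := by
        refine Finset.sum_le_sum fun m hm => ?_
        rw [mem_Icc] at hm
        have h2 : (2 : ℝ) ≤ m := by exact_mod_cast hm.1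
        have h3 : Real.log 2 ≤ Real.log m := Real.log_le_log (by norm_num) h2
        have h4 := Real.log_two_gt_d9
        rw [div_le_iff₀ (by linarith)]
        linarith
    _ = (Icc 2 y).card * 2 := by rw [Finset.sum_const, nsmul_eq_mul]
    _ ≤ y * 2 := by
        refine mul_le_mul_of_nonneg_right ?_ (by norm_num)
        rw [Nat.card_Icc]
        exact_mod_cast (by omega : y + 1 - 2 ≤ y)
    _ = 2 * y := by ring

theorem pc_le (y : ℕ) : (Nat.primeCounting y : ℝ) ≤ 2 * y := by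
  rw [pc_eq]
  have h : ((Icc 1 y).filter (fun p : ℕ => p.Prime)).card ≤ y := by
    refine (card_filter_le _ _).trans ?_
    rw [Nat.card_Icc]; omega
  have : (((Icc 1 y).filter (fun p : ℕ => p.Prime)).card : ℝ) ≤ y := by exact_mod_cast h
  have h0 : (0 : ℝ) ≤ y := Nat.cast_nonneg y
  linarith

/-- the prime number theorem, uniformly for `y ≤ n log^B n`, with error `δ n / log^B n` -/
theorem pnt_unif (B : ℕ) (δ : ℝ) (hδ : 0 < δ) : ∀ᶠ n : ℕ in atTop, ∀ y : ℕ,
    (y : ℝ) ≤ n * Real.log n ^ B →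
      |(Nat.primeCounting y : ℝ) - lis y| ≤ δ * (n / Real.log n ^ B) := by
  obtain ⟨C, hC⟩ := Pool.Agent.H442R2.EHI.pnt_err (2 * B + 1)
  have hlog : Tendsto (fun n : ℕ => Real.log (n : ℝ)) atTop atTop :=
    Real.tendsto_log_atTop.comp tendsto_natCast_atTop_atTop
  have hs : ∀ᶠ x : ℝ in atTop, 2 * (Real.log x) ^ B ≤ δ * √x := by
    have := (isLittleO_log_rpow_rpow_atTop (B : ℕ) (show (0 : ℝ) < 1 / 2 by norm_num)).bound
      (c := δ / 2) (by positivity)
    filter_upwards [this, Filter.eventually_ge_atTop (1 : ℝ)] with x hx hx1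
    have hl : 0 ≤ Real.log x := Real.log_nonneg hx1
    rw [Real.rpow_natCast, Real.norm_of_nonneg (by positivity), Real.norm_of_nonneg (by positivity),
      ← Real.sqrt_eq_rpow] at hx
    linarith
  filter_upwards [hlog.eventually_ge_atTop 2, hlog.eventually_ge_atTop (|C| * 2 ^ (2 * B + 1) / δ),
    tendsto_natCast_atTop_atTop.eventually hs, eventually_ge_atTop 9] with n h1 h2 h3 h4 y hy
  set L := Real.log n with hL
  have hL0 : 0 < L := by linarith
  have hn0 : (0 : ℝ) < n := by exact_mod_cast (by omega : 0 < n)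
  have hsn : 0 < √(n : ℝ) := by positivity
  have hss := Real.mul_self_sqrt hn0.le
  have hLB : 0 < L ^ B := by positivity
  rcases le_or_gt (y : ℝ) (√n) with hyn | hyn
  · -- small `y`
    have e1 : |(Nat.primeCounting y : ℝ) - lis y| ≤ 2 * y := by
      rw [abs_le]
      have := lis_nonneg y
      have := lis_le y
      have := pc_le y
      have : (0 : ℝ) ≤ Nat.primeCounting y := Nat.cast_nonneg _
      constructor <;> linarith
    refine e1.trans ?_
    rw [← mul_div_assoc, le_div_iff₀ hLB]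
    calc 2 * (y : ℝ) * L ^ B ≤ 2 * √n * L ^ B := by gcongr
      _ = √n * (2 * L ^ B) := by ring
      _ ≤ √n * (δ * √n) := by gcongr
      _ = δ * n := by rw [mul_left_comm, hss]
  · have h9 : (3 : ℝ) ≤ √n := by
      rw [Real.le_sqrt (by norm_num) hn0.le]
      have : (9 : ℝ) ≤ n := by exact_mod_cast h4
      linarith
    have hy2 : 2 ≤ y := by
      have : (2 : ℝ) < y := by linarith
      exact_mod_cast this.le
    have hy0 : (0 : ℝ) < y := by linarith
    refine (by simpa [pc_eq] using hC y hy2 : |(Nat.primeCounting y : ℝ) - lis y| ≤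
      C * y / Real.log y ^ (2 * B + 1)).trans ?_
    have hly : L / 2 ≤ Real.log y := by
      have : Real.log (√n) ≤ Real.log y := Real.log_le_log hsn hyn.le
      rwa [Real.log_sqrt hn0.le] at this
    have hly0 : 0 < Real.log y := by linarith
    have e1 : (L / 2) ^ (2 * B + 1) ≤ Real.log y ^ (2 * B + 1) :=
      pow_le_pow_left₀ (by linarith) hly _
    have hC0 : 0 ≤ |C| := abs_nonneg C
    calc C * y / Real.log y ^ (2 * B + 1) ≤ |C| * y / Real.log y ^ (2 * B + 1) := by
          gcongr; exact le_abs_self C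
      _ ≤ |C| * (n * L ^ B) / (L / 2) ^ (2 * B + 1) := by
          gcongr
      _ = (|C| * 2 ^ (2 * B + 1) / L) * (n / L ^ B) := by
          rw [div_pow]
          field_simp
          ring
      _ ≤ δ * (n / L ^ B) := by
          gcongr
          rw [div_le_iff₀ hL0]
          rw [div_le_iff₀ hδ] at h2
          linarith

/-- each difference of the reciprocals of the logarithms -/
theorem recip_diff (a n M : ℕ) (ha : 2 ≤ a) (hM : a + n ≤ M) :
    (n : ℝ) / (M * Real.log M ^ 2) ≤ 1 / Real.log a - 1 / Real.log ((a + n : ℕ) : ℝ) := by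
  have ha' : (2 : ℝ) ≤ a := by exact_mod_cast ha
  have ha0 : (0 : ℝ) < a := by linarith
  have hb : (a : ℝ) ≤ ((a + n : ℕ) : ℝ) := by exact_mod_cast (by omega : a ≤ a + n)
  have hb0 : (0 : ℝ) < ((a + n : ℕ) : ℝ) := by linarith
  have hbM : ((a + n : ℕ) : ℝ) ≤ M := by exact_mod_cast hM
  have hla : 0 < Real.log a := Real.log_pos (by linarith)
  have hlab : Real.log a ≤ Real.log ((a + n : ℕ) : ℝ) := Real.log_le_log ha0 hb
  have hlbM : Real.log ((a + n : ℕ) : ℝ) ≤ Real.log M := Real.log_le_log hb0 hbM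
  have hlb : 0 < Real.log ((a + n : ℕ) : ℝ) := by linarith
  have hM0 : (0 : ℝ) < M := by linarith
  have h1 : (n : ℝ) / ((a + n : ℕ) : ℝ) ≤ Real.log ((a + n : ℕ) : ℝ) - Real.log a := by
    have h := Real.add_one_le_exp (-(Real.log ((a + n : ℕ) : ℝ) - Real.log a))
    have h2 : Real.exp (-(Real.log ((a + n : ℕ) : ℝ) - Real.log a)) = a / ((a + n : ℕ) : ℝ) := by
      rw [neg_sub, Real.exp_sub, Real.exp_log ha0, Real.exp_log hb0]
    rw [h2] at h
    have h3 : (n : ℝ) / ((a + n : ℕ) : ℝ) = 1 - a / ((a + n : ℕ) : ℝ) := by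
      rw [eq_sub_iff_add_eq, ← add_div, div_eq_one_iff_eq hb0.ne']
      push_cast; ring
    linarith
  have hn0 : (0 : ℝ) ≤ n := Nat.cast_nonneg n
  calc (n : ℝ) / (M * Real.log M ^ 2)
      ≤ n / (((a + n : ℕ) : ℝ) * (Real.log a * Real.log ((a + n : ℕ) : ℝ))) := by
        refine div_le_div_of_nonneg_left hn0 (by positivity) ?_
        refine mul_le_mul hbM ?_ (by positivity) hM0.le
        rw [sq]
        exact mul_le_mul (by linarith) hlbM hlb.le (by linarith)
    _ = (n / ((a + n : ℕ) : ℝ)) / (Real.log a * Real.log ((a + n : ℕ) : ℝ)) := by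
        rw [div_div]
    _ ≤ (Real.log ((a + n : ℕ) : ℝ) - Real.log a) / (Real.log a * Real.log ((a + n : ℕ) : ℝ)) := by
        gcongr
    _ = 1 / Real.log a - 1 / Real.log ((a + n : ℕ) : ℝ) := by
        field_simp

/-- second difference of `lis` -/
theorem lis_second (x n : ℕ) (hn : 2 ≤ n) :
    n * ((n : ℝ) / (((x + 2 * n : ℕ) : ℝ) * Real.log ((x + 2 * n : ℕ) : ℝ) ^ 2)) - 3 ≤
      (lis (x + n) - lis x) - (lis (x + 2 * n) - lis (x + n)) := by
  set c : ℝ := (n : ℝ) / (((x + 2 * n : ℕ) : ℝ) * Real.log ((x + 2 * n : ℕ) : ℝ) ^ 2) with hc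
  have e1 : lis (x + n) - lis x = ∑ j ∈ range n, 1 / Real.log ((x + 1 + j : ℕ) : ℝ) := by
    rw [lis_eq, lis_eq, show x + n + 1 = (x + 1) + n by ring, Finset.sum_range_add]
    ring
  have e2 : lis (x + 2 * n) - lis (x + n) =
      ∑ j ∈ range n, 1 / Real.log ((x + 1 + j + n : ℕ) : ℝ) := by
    rw [lis_eq, lis_eq, show x + 2 * n + 1 = (x + n + 1) + n by ring, Finset.sum_range_add]
    rw [add_sub_cancel_left]
    refine Finset.sum_congr rfl fun j _ => ?_
    rw [show x + n + 1 + j = x + 1 + j + n by ring]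
  rw [e1, e2, ← Finset.sum_sub_distrib]
  have hM4 : (4 : ℝ) ≤ ((x + 2 * n : ℕ) : ℝ) := by exact_mod_cast (by omega : 4 ≤ x + 2 * n)
  have hlM : 1 ≤ Real.log ((x + 2 * n : ℕ) : ℝ) := by
    have h1 : Real.log 4 ≤ Real.log ((x + 2 * n : ℕ) : ℝ) := Real.log_le_log (by norm_num) hM4
    have h2 : Real.log 4 = 2 * Real.log 2 := by
      rw [show (4 : ℝ) = 2 ^ 2 by norm_num, Real.log_pow]; norm_num
    have := Real.log_two_gt_d9
    linarith
  have hc0 : 0 ≤ c := by rw [hc]; positivity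
  have hc1 : c ≤ 1 := by
    rw [hc, div_le_one (by positivity)]
    have h1 : (n : ℝ) ≤ ((x + 2 * n : ℕ) : ℝ) := by exact_mod_cast (by omega : n ≤ x + 2 * n)
    have h2 : 1 ≤ Real.log ((x + 2 * n : ℕ) : ℝ) ^ 2 := one_le_pow₀ hlM
    nlinarith
  have hterm : ∀ j ∈ range n, c - (if j = 0 then 3 else 0) ≤
      1 / Real.log ((x + 1 + j : ℕ) : ℝ) - 1 / Real.log ((x + 1 + j + n : ℕ) : ℝ) := by
    intro j hj
    rw [mem_range] at hj
    by_cases h : 2 ≤ x + 1 + j
    · have := recip_diff (x + 1 + j) n (x + 2 * n) h (by omega)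
      have h3 : (0 : ℝ) ≤ (if j = 0 then 3 else 0) := by split_ifs <;> norm_num
      linarith
    · have hx : x = 0 := by omega
      have hj0 : j = 0 := by omega
      subst hx hj0
      simp only [if_true]
      have h5 : (2 : ℝ) ≤ ((0 + 1 + 0 + n : ℕ) : ℝ) := by exact_mod_cast (by omega : 2 ≤ 0 + 1 + 0 + n)
      have h6 : Real.log 2 ≤ Real.log ((0 + 1 + 0 + n : ℕ) : ℝ) := Real.log_le_log (by norm_num) h5
      have := Real.log_two_gt_d9
      have h7 : 1 / Real.log ((0 + 1 + 0 + n : ℕ) : ℝ) ≤ 2 := by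
        rw [div_le_iff₀ (by linarith)]
        linarith
      have h8 : 1 / Real.log ((0 + 1 + 0 : ℕ) : ℝ) = 0 := by simp
      rw [h8]
      linarith
  have := Finset.sum_le_sum hterm
  refine le_trans ?_ this
  rw [Finset.sum_sub_distrib, Finset.sum_const, card_range, nsmul_eq_mul, Finset.sum_ite_eq',
    if_pos (mem_range.2 (by omega))]

/-- **Drift.** For every `A` and all large `n`: if `x ≤ n log^A n` then `(x, x + n]` contains more
primes than `(x + n, x + 2 n]`. -/
theorem drift (A : ℕ) : ∀ᶠ n : ℕ in atTop, ∀ x : ℕ, (x : ℝ) ≤ n * Real.log n ^ A →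
    Nat.primeCounting (x + 2 * n) - Nat.primeCounting (x + n) <
      Nat.primeCounting (x + n) - Nat.primeCounting x := by
  have hlog : Tendsto (fun n : ℕ => Real.log (n : ℝ)) atTop atTop :=
    Real.tendsto_log_atTop.comp tendsto_natCast_atTop_atTop
  have hs : ∀ᶠ x : ℝ in atTop, (Real.log x) ^ (A + 2) ≤ 1 / 100 * x := by
    have := (isLittleO_log_rpow_rpow_atTop ((A + 2 : ℕ) : ℝ) (show (0 : ℝ) < 1 by norm_num)).bound
      (c := 1 / 100) (by positivity)
    filter_upwards [this, Filter.eventually_ge_atTop (1 : ℝ)] with x hx hx1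
    have hl : 0 ≤ Real.log x := Real.log_nonneg hx1
    rw [Real.rpow_natCast, Real.norm_of_nonneg (by positivity), Real.norm_of_nonneg (by positivity),
      Real.rpow_one] at hx
    linarith
  filter_upwards [pnt_unif (A + 2) (1 / 100) (by norm_num), hlog.eventually_ge_atTop 2,
    tendsto_natCast_atTop_atTop.eventually hs, eventually_ge_atTop 2] with n h1 h2 h3 h4 x hx
  set L := Real.log n with hL
  have hL0 : 0 < L := by linarith
  have hn0 : (0 : ℝ) < n := by exact_mod_cast (by omega : 0 < n)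
  have hLA : 1 ≤ L ^ A := one_le_pow₀ (by linarith)
  have hLA2 : 1 ≤ L ^ (A + 2) := one_le_pow₀ (by linarith)
  have hx2 : ((x + 2 * n : ℕ) : ℝ) ≤ 3 * (n * L ^ A) := by
    push_cast
    nlinarith
  have hx3 : ((x + 2 * n : ℕ) : ℝ) ≤ n * L ^ (A + 2) := by
    refine hx2.trans ?_
    have : (4 : ℝ) ≤ L ^ 2 := by nlinarith
    rw [pow_add]
    have h5 : 0 < n * L ^ A := by positivity
    nlinarith
  have hx4 : ((x + 2 * n : ℕ) : ℝ) ≤ n ^ 2 := by
    refine hx3.trans ?_
    nlinarith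
  have hx5 : (0 : ℝ) < ((x + 2 * n : ℕ) : ℝ) := by exact_mod_cast (by omega : 0 < x + 2 * n)
  have hlx : Real.log ((x + 2 * n : ℕ) : ℝ) ≤ 2 * L := by
    have := Real.log_le_log hx5 hx4
    rwa [Real.log_pow, Nat.cast_ofNat] at this
  have hlx0 : 0 < Real.log ((x + 2 * n : ℕ) : ℝ) := by
    apply Real.log_pos
    exact_mod_cast (by omega : 1 < x + 2 * n)
  have hsec := lis_second x n h4
  have hc : 1 / (12 * L ^ (A + 2)) ≤
      (n : ℝ) / (((x + 2 * n : ℕ) : ℝ) * Real.log ((x + 2 * n : ℕ) : ℝ) ^ 2) := by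
    rw [div_le_div_iff₀ (by positivity) (by positivity), one_mul]
    calc ((x + 2 * n : ℕ) : ℝ) * Real.log ((x + 2 * n : ℕ) : ℝ) ^ 2
        ≤ (3 * (n * L ^ A)) * (2 * L) ^ 2 := by gcongr
      _ = n * (12 * L ^ (A + 2)) := by ring
  have hmain : (n : ℝ) / (12 * L ^ (A + 2)) - 3 ≤
      (lis (x + n) - lis x) - (lis (x + 2 * n) - lis (x + n)) := by
    refine le_trans ?_ hsec
    have := mul_le_mul_of_nonneg_left hc hn0.le
    rw [mul_one_div] at this
    linarith
  have hb0 : (x : ℝ) ≤ ((x + 2 * n : ℕ) : ℝ) := by exact_mod_cast (by omega : x ≤ x + 2 * n)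
  have hb1 : ((x + n : ℕ) : ℝ) ≤ ((x + 2 * n : ℕ) : ℝ) := by
    exact_mod_cast (by omega : x + n ≤ x + 2 * n)
  have k0 := h1 x (hb0.trans hx3)
  have k1 := h1 (x + n) (hb1.trans hx3)
  have k2 := h1 (x + 2 * n) hx3
  rw [abs_le] at k0 k1 k2
  have hbig : 100 ≤ (n : ℝ) / L ^ (A + 2) := by
    rw [le_div_iff₀ (by positivity)]
    linarith
  have heq : (n : ℝ) / (12 * L ^ (A + 2)) = 1 / 12 * (n / L ^ (A + 2)) := by
    rw [mul_comm (12 : ℝ), ← div_div]; ring
  rw [heq] at hmain
  have hfin : (Nat.primeCounting (x + 2 * n) : ℝ) + Nat.primeCounting x <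
      2 * Nat.primeCounting (x + n) := by
    linarith [k0.1, k0.2, k1.1, k1.2, k2.1, k2.2]
  have hfin' : Nat.primeCounting (x + 2 * n) + Nat.primeCounting x <
      2 * Nat.primeCounting (x + n) := by exact_mod_cast hfin
  have m1 : Nat.primeCounting x ≤ Nat.primeCounting (x + n) :=
    Nat.monotone_primeCounting (by omega)
  have m2 : Nat.primeCounting (x + n) ≤ Nat.primeCounting (x + 2 * n) :=
    Nat.monotone_primeCounting (by omega)
  omega

/-- `π (y) ≥ y / (2 log y)` for large `y` -/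
theorem pi_lower : ∀ᶠ y : ℕ in atTop, (y : ℝ) / (2 * Real.log y) ≤ Nat.primeCounting y := by
  obtain ⟨C, hC⟩ := Pool.Agent.H442R2.EHI.pnt_err 2
  have hlog : Tendsto (fun n : ℕ => Real.log (n : ℝ)) atTop atTop :=
    Real.tendsto_log_atTop.comp tendsto_natCast_atTop_atTop
  filter_upwards [hlog.eventually_ge_atTop 2, hlog.eventually_ge_atTop (8 * |C|),
    eventually_ge_atTop 8] with y h1 h2 h3
  set L := Real.log y with hL
  have hL0 : 0 < L := by linarith
  have hy8 : (8 : ℝ) ≤ y := by exact_mod_cast h3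
  have hy0 : (0 : ℝ) < y := by linarith
  have k := hC y (by omega)
  rw [← pc_eq, abs_le] at k
  have hlis : ((y : ℝ) - 1) / L ≤ lis y := by
    unfold Pool.Agent.H442R2.EHI.lis
    calc ((y : ℝ) - 1) / L = ∑ m ∈ Icc 2 y, 1 / L := by
          rw [Finset.sum_const, Nat.card_Icc, nsmul_eq_mul, show y + 1 - 2 = y - 1 by omega,
            Nat.cast_sub (by omega)]
          push_cast; ring
      _ ≤ ∑ m ∈ Icc 2 y, 1 / Real.log m := by
          refine Finset.sum_le_sum fun m hm => ?_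
          rw [mem_Icc] at hm
          have hm2 : (2 : ℝ) ≤ m := by exact_mod_cast hm.1
          have hmy : (m : ℝ) ≤ y := by exact_mod_cast hm.2
          exact one_div_le_one_div_of_le (Real.log_pos (by linarith))
            (Real.log_le_log (by linarith) hmy)
  have hCb : C * y / L ^ 2 ≤ (y / L) / 8 := by
    rw [div_div, div_le_div_iff₀ (by positivity) (by positivity)]
    have : C ≤ |C| := le_abs_self C
    have h5 : C * 8 ≤ L := by linarith
    calc C * y * (L * 8) = (C * 8) * (y * L) := by ring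
      _ ≤ L * (y * L) := by gcongr
      _ = y * L ^ 2 := by ring
  have e1 : ((y : ℝ) - 1) / L ≥ 7 / 8 * (y / L) := by
    rw [ge_iff_le, ← mul_div_assoc]
    gcongr
    linarith
  have e2 : (y : ℝ) / (2 * L) = 1 / 2 * (y / L) := by
    rw [mul_comm, ← div_div]; ring
  rw [e2]
  have : 0 < (y : ℝ) / L := by positivity
  linarith [k.1]

/-- the `n`-th prime is at most `n log^2 n` for large `n` -/
theorem nth_le : ∀ᶠ n : ℕ in atTop, (Nat.nth Nat.Prime (n - 1) : ℝ) ≤ n * Real.log n ^ 2 := by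
  have hlog : Tendsto (fun n : ℕ => Real.log (n : ℝ)) atTop atTop :=
    Real.tendsto_log_atTop.comp tendsto_natCast_atTop_atTop
  have hy : Tendsto (fun n : ℕ => ⌊(n : ℝ) * Real.log n ^ 2⌋₊) atTop atTop := by
    refine tendsto_nat_floor_atTop.comp ?_
    refine tendsto_natCast_atTop_atTop.atTop_mul_atTop₀ ?_
    exact (tendsto_pow_atTop (by norm_num)).comp hlog
  have hs : ∀ᶠ x : ℝ in atTop, (Real.log x) ^ 2 ≤ 1 * x := by
    have := (isLittleO_log_rpow_rpow_atTop ((2 : ℕ) : ℝ) (show (0 : ℝ) < 1 by norm_num)).bound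
      (c := 1) (by positivity)
    filter_upwards [this, Filter.eventually_ge_atTop (1 : ℝ)] with x hx hx1
    have hl : 0 ≤ Real.log x := Real.log_nonneg hx1
    rw [Real.rpow_natCast, Real.norm_of_nonneg (by positivity), Real.norm_of_nonneg (by positivity),
      Real.rpow_one] at hx
    linarith
  filter_upwards [hy.eventually pi_lower, hlog.eventually_ge_atTop 5,
    tendsto_natCast_atTop_atTop.eventually hs, eventually_ge_atTop 2] with n h1 h2 h3 h4
  set L := Real.log n with hL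
  set y := ⌊(n : ℝ) * L ^ 2⌋₊ with hydef
  have hn0 : (0 : ℝ) < n := by exact_mod_cast (by omega : 0 < n)
  have hn2 : (2 : ℝ) ≤ n := by exact_mod_cast h4
  have hL0 : 0 < L := by linarith
  have hpos : (0 : ℝ) ≤ n * L ^ 2 := by positivity
  have hy1 : (y : ℝ) ≤ n * L ^ 2 := Nat.floor_le hpos
  have hy2 : (n : ℝ) * L ^ 2 < y + 1 := Nat.lt_floor_add_one _
  have hy3 : (y : ℝ) ≤ n ^ 2 := by
    refine hy1.trans ?_
    nlinarith
  have hL25 : (25 : ℝ) ≤ L ^ 2 := by nlinarith
  have hyn : (24 : ℝ) / 25 * (n * L ^ 2) ≤ y := by nlinarith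
  have hy0 : (1 : ℝ) < y := by nlinarith
  have hly : Real.log y ≤ 2 * L := by
    have := Real.log_le_log (by linarith) hy3
    rwa [Real.log_pow, Nat.cast_ofNat] at this
  have hly0 : 0 < Real.log y := Real.log_pos hy0
  have hcount : (n : ℝ) ≤ Nat.primeCounting y := by
    refine le_trans ?_ h1
    rw [le_div_iff₀ (by positivity)]
    calc (n : ℝ) * (2 * Real.log y) ≤ n * (2 * (2 * L)) := by gcongr
      _ ≤ 24 / 25 * (n * L ^ 2) := by nlinarith
      _ ≤ y := hyn
  have hcount' : n ≤ Nat.primeCounting y := by exact_mod_cast hcount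
  have hlt : Nat.nth Nat.Prime (n - 1) < y + 1 := by
    apply Nat.nth_lt_of_lt_count
    have : Nat.primeCounting y = Nat.count Nat.Prime (y + 1) := rfl
    omega
  have : (Nat.nth Nat.Prime (n - 1) : ℝ) ≤ y := by exact_mod_cast (by omega : Nat.nth Nat.Prime (n - 1) ≤ y)
  linarith

end Pool.Agent.R518.Drift
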