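import Mathlib

/-! Combinatorial part: if `m` is not a sum of two positive squares and not of the form
`2x^2+z^2+3x^2z`, then the number of minimal `m`-Markoff triples is divisible by `3`. -/

namespace Pool.Agent.R518.Markoff3

/-- `(a,b,c)` is an `m`-Markoff triple of positive integers with `a ≤ b ≤ c` and
`3ab - c ≤ 0`. -/
def Minimal (m a b c : ℤ) : Prop :=
  0 < a ∧ 0 < b ∧ 0 < c ∧ a ^ 2 + b ^ 2 + c ^ 2 = 3 * a * b * c + m ∧
    a ≤ b ∧ b ≤ c ∧ 3 * a * b - c ≤ 0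

/-- The set of minimal `m`-Markoff triples. -/
def O (m : ℤ) : Set (ℤ × ℤ × ℤ) := {t | Minimal m t.1 t.2.1 t.2.2}

/-- the parameter set -/
noncomputable def P (m : ℤ) : Finset (ℤ × ℤ × ℤ) :=
  (Finset.Icc 1 m ×ˢ Finset.Icc 1 m ×ˢ Finset.Icc 1 m).filter
    (fun t => t.1 < t.2.1 ∧ t.2.2 ≠ t.1 ∧ t.2.2 ≠ t.2.1 ∧
      t.1 ^ 2 + t.2.1 ^ 2 + t.2.2 ^ 2 + 3 * t.1 * t.2.1 * t.2.2 = m)

lemma mem_P {m a b f : ℤ} : (a, b, f) ∈ P m ↔
    0 < a ∧ a < b ∧ 0 < f ∧ f ≠ a ∧ f ≠ b ∧ a ^ 2 + b ^ 2 + f ^ 2 + 3 * a * b * f = m := by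
  unfold P
  simp only [Finset.mem_filter, Finset.mem_product, Finset.mem_Icc]
  constructor
  · rintro ⟨⟨⟨h1, h2⟩, ⟨h3, h4⟩, h5, h6⟩, h7, h8, h9, h10⟩
    exact ⟨by omega, h7, by omega, h8, h9, h10⟩
  · rintro ⟨h1, h2, h3, h4, h5, h6⟩
    have hb : 0 < b := h1.trans h2
    have habf : 0 < a * b * f := by positivity
    refine ⟨⟨⟨h1, ?_⟩, ⟨hb, ?_⟩, h3, ?_⟩, h2, h4, h5, h6⟩ <;> nlinarith

lemma card_P (m : ℤ) : 3 ∣ (P m).card := by
  classical
  set P1 := (P m).filter (fun t => t.2.2 < t.1) with hP1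
  set P2 := (P m).filter (fun t => t.1 < t.2.2 ∧ t.2.2 < t.2.1) with hP2
  set P3 := (P m).filter (fun t => t.2.1 < t.2.2) with hP3
  have hdec : P m = P1 ∪ P2 ∪ P3 := by
    ext ⟨a, b, f⟩
    simp only [hP1, hP2, hP3, Finset.mem_union, Finset.mem_filter]
    constructor
    · intro h
      have h' := mem_P.1 h
      rcases lt_trichotomy f a with h1 | h1 | h1
      · exact Or.inl (Or.inl ⟨h, h1⟩)
      · exact absurd h1 h'.2.2.2.1
      · rcases lt_trichotomy f b with h2 | h2 | h2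
        · exact Or.inl (Or.inr ⟨h, h1, h2⟩)
        · exact absurd h2 h'.2.2.2.2.1
        · exact Or.inr ⟨h, h2⟩
    · rintro ((h | h) | h) <;> exact h.1
  have hd12 : Disjoint P1 P2 := by
    rw [Finset.disjoint_left]
    rintro ⟨a, b, f⟩ h1 h2
    simp only [hP1, hP2, Finset.mem_filter] at h1 h2
    omega
  have hd3 : Disjoint (P1 ∪ P2) P3 := by
    rw [Finset.disjoint_left]
    rintro ⟨a, b, f⟩ h1 h2
    simp only [hP1, hP2, hP3, Finset.mem_filter, Finset.mem_union] at h1 h2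
    have := (mem_P.1 h2.1)
    omega
  have h12 : P1.card = P2.card := by
    refine Finset.card_bij' (fun t _ => (t.2.2, t.2.1, t.1)) (fun t _ => (t.2.2, t.2.1, t.1)) ?_ ?_ ?_ ?_
    · rintro ⟨a, b, f⟩ h
      simp only [hP1, hP2, Finset.mem_filter, mem_P] at h ⊢
      obtain ⟨⟨h1, h2, h3, h4, h5, h6⟩, h7⟩ := h
      refine ⟨⟨h3, by omega, h1, by omega, by omega, ?_⟩, by omega, by omega⟩
      rw [← h6]; ring
    · rintro ⟨a, b, f⟩ h
      simp only [hP1, hP2, Finset.mem_filter, mem_P] at h ⊢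
      obtain ⟨⟨h1, h2, h3, h4, h5, h6⟩, h7, h8⟩ := h
      refine ⟨⟨h3, by omega, h1, by omega, by omega, ?_⟩, by omega⟩
      rw [← h6]; ring
    · rintro ⟨a, b, f⟩ h
      rfl
    · rintro ⟨a, b, f⟩ h
      rfl
  have h13 : P1.card = P3.card := by
    refine Finset.card_bij' (fun t _ => (t.2.2, t.1, t.2.1)) (fun t _ => (t.2.1, t.2.2, t.1)) ?_ ?_ ?_ ?_
    · rintro ⟨a, b, f⟩ h
      simp only [hP1, hP3, Finset.mem_filter, mem_P] at h ⊢
      obtain ⟨⟨h1, h2, h3, h4, h5, h6⟩, h7⟩ := h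
      refine ⟨⟨h3, by omega, by omega, by omega, by omega, ?_⟩, by omega⟩
      rw [← h6]; ring
    · rintro ⟨a, b, f⟩ h
      simp only [hP1, hP3, Finset.mem_filter, mem_P] at h ⊢
      obtain ⟨⟨h1, h2, h3, h4, h5, h6⟩, h7⟩ := h
      refine ⟨⟨by omega, by omega, by omega, by omega, by omega, ?_⟩, by omega⟩
      rw [← h6]; ring
    · rintro ⟨a, b, f⟩ h
      rfl
    · rintro ⟨a, b, f⟩ h
      rfl
  rw [hdec, Finset.card_union_of_disjoint hd3, Finset.card_union_of_disjoint hd12, ← h12, ← h13]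
  exact ⟨P1.card, by ring⟩

theorem main_comb (m : ℤ)
    (h2sq : ∀ a b : ℤ, 0 < a → 0 < b → a ^ 2 + b ^ 2 ≠ m)
    (hrep : ∀ x z : ℤ, 0 < x → 0 < z → 2 * x ^ 2 + z ^ 2 + 3 * x ^ 2 * z ≠ m) :
    (O m).Finite ∧ 3 ∣ (O m).ncard ∧
      (∀ x y z : ℤ, 0 < x → 0 < y → 0 < z → x ^ 2 + y ^ 2 + z ^ 2 + 3 * x * y * z = m →
        (O m).Nonempty) := by
  classical
  have himg : O m = (fun t : ℤ × ℤ × ℤ => (t.1, t.2.1, 3 * t.1 * t.2.1 + t.2.2)) '' (P m : Set _) := by
    ext ⟨a, b, c⟩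
    simp only [O, Set.mem_ofPred_eq, Set.mem_image, Prod.exists, Prod.mk.injEq, Finset.mem_coe]
    constructor
    · rintro ⟨h1, h2, h3, h4, h5, h6, h7⟩
      refine ⟨a, b, c - 3 * a * b, ?_, rfl, rfl, by ring⟩
      rw [mem_P]
      have key : a ^ 2 + b ^ 2 + (c - 3 * a * b) ^ 2 + 3 * a * b * (c - 3 * a * b) = m := by
        linear_combination h4
      have hf : 0 < c - 3 * a * b := by
        rcases lt_or_eq_of_le h7 with h | h
        · linarith
        · exfalso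
          have hc : c = 3 * a * b := by linarith
          apply h2sq a b h1 h2
          rw [← key, hc]; ring
      refine ⟨h1, lt_of_le_of_ne h5 ?_, hf, ?_, ?_, key⟩
      · intro hab
        apply hrep a (c - 3 * a * b) h1 hf
        rw [← key, ← hab]; ring
      · intro hfa
        apply hrep a b h1 h2
        rw [← key, hfa]; ring
      · intro hfb
        apply hrep b a h2 h1
        rw [← key, hfb]; ring
    · rintro ⟨a', b', f, h, rfl, rfl, rfl⟩
      obtain ⟨h1, h2, h3, h4, h5, h6⟩ := mem_P.1 h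
      have hb : 0 < b' := h1.trans h2
      have hab : 0 < a' * b' := by positivity
      unfold Minimal
      refine ⟨h1, hb, by nlinarith, ?_, h2.le, ?_, by linarith⟩
      · linear_combination h6
      · nlinarith
  have hinj : Function.Injective
      (fun t : ℤ × ℤ × ℤ => (t.1, t.2.1, 3 * t.1 * t.2.1 + t.2.2)) := by
    rintro ⟨a, b, f⟩ ⟨a', b', f'⟩ h
    simp only [Prod.mk.injEq] at h ⊢
    obtain ⟨rfl, rfl, h⟩ := h
    exact ⟨rfl, rfl, by linarith⟩
  refine ⟨?_, ?_, ?_⟩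
  · rw [himg]; exact (Finset.finite_toSet _).image _
  · rw [himg, Set.ncard_image_of_injective _ hinj, Set.ncard_coe_finset]
    exact card_P m
  · intro x y z hx hy hz h
    wlog hxy : x ≤ y generalizing x y
    · exact this y x hy hx (by rw [← h]; ring) (by omega)
    refine ⟨(x, y, 3 * x * y + z), ?_⟩
    simp only [O, Set.mem_ofPred_eq, Minimal]
    have : 0 < x * y := by positivity
    refine ⟨hx, hy, by nlinarith, ?_, hxy, ?_, by linarith⟩
    · linear_combination h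
    · nlinarith

end Pool.Agent.R518.Markoff3
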