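import Mathlib

/-! Counting part: values of `2x^2+z^2+3x^2z` are sparse, values of `1+y^2+z^2+3yz` are not. -/

namespace Pool.Agent.R518.Markoff3

lemma card_B (s : ℕ) (hs : 1 ≤ s) : ∃ B : Finset ℤ, (B.card : ℝ) ≤ 154 * (s : ℝ) ^ 15 ∧
    ∀ x z : ℤ, 0 < x → 0 < z → 2 * x ^ 2 + z ^ 2 + 3 * x ^ 2 * z ≤ 400 * (s : ℤ) ^ 20 →
      2 * x ^ 2 + z ^ 2 + 3 * x ^ 2 * z ∈ B := by
  classical
  set B1 : Finset ℤ := (Finset.Icc 1 (s ^ 5) ×ˢ Finset.Icc 1 (20 * s ^ 10)).image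
    (fun p : ℕ × ℕ => 2 * (p.1 : ℤ) ^ 2 + (p.2 : ℤ) ^ 2 + 3 * (p.1 : ℤ) ^ 2 * p.2) with hB1
  set B2 : Finset ℤ := ((Finset.Ioc (s ^ 5) (20 * s ^ 10)).sigma
      (fun x => Finset.Icc 1 (400 * s ^ 20 / (3 * x ^ 2)))).image
    (fun p : (_ : ℕ) × ℕ => 2 * (p.1 : ℤ) ^ 2 + (p.2 : ℤ) ^ 2 + 3 * (p.1 : ℤ) ^ 2 * p.2) with hB2
  have hs0 : (0 : ℝ) < s := by exact_mod_cast hs
  refine ⟨B1 ∪ B2, ?_, ?_⟩
  · have h1 : (B1.card : ℝ) ≤ 20 * (s : ℝ) ^ 15 := by
      have : B1.card ≤ s ^ 5 * (20 * s ^ 10) := by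
        refine Finset.card_image_le.trans ?_
        rw [Finset.card_product, Nat.card_Icc, Nat.card_Icc]
        simp
      calc (B1.card : ℝ) ≤ ((s ^ 5 * (20 * s ^ 10) : ℕ) : ℝ) := by exact_mod_cast this
        _ = 20 * (s : ℝ) ^ 15 := by push_cast; ring
    have h2 : (B2.card : ℝ) ≤ 134 * (s : ℝ) ^ 15 := by
      have h3 : B2.card ≤ ∑ x ∈ Finset.Ioc (s ^ 5) (20 * s ^ 10), 400 * s ^ 20 / (3 * x ^ 2) := by
        refine Finset.card_image_le.trans ?_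
        rw [Finset.card_sigma]
        apply Finset.sum_le_sum
        intro x _
        rw [Nat.card_Icc]
        simp
      have h4 : ((∑ x ∈ Finset.Ioc (s ^ 5) (20 * s ^ 10), 400 * s ^ 20 / (3 * x ^ 2) : ℕ) : ℝ) ≤
          ∑ x ∈ Finset.Ioc (s ^ 5) (20 * s ^ 10), (400 * (s : ℝ) ^ 20 / 3) * ((x : ℝ) ^ 2)⁻¹ := by
        rw [Nat.cast_sum]
        apply Finset.sum_le_sum
        intro x hx
        rw [Finset.mem_Ioc] at hx
        have hx0 : 0 < x := by omega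
        refine Nat.cast_div_le.trans ?_
        push_cast
        rw [div_mul_eq_mul_div, ← div_eq_mul_inv, div_div]
        apply le_of_eq
        have : (x : ℝ) ≠ 0 := by positivity
        field_simp
      have h5 : ∑ x ∈ Finset.Ioc (s ^ 5) (20 * s ^ 10), ((x : ℝ) ^ 2)⁻¹ ≤ ((s ^ 5 : ℕ) : ℝ)⁻¹ := by
        have hle : s ^ 5 ≤ 20 * s ^ 10 := by
          calc s ^ 5 ≤ s ^ 10 := Nat.pow_le_pow_right hs (by norm_num)
            _ ≤ 20 * s ^ 10 := by omega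
        have hne : s ^ 5 ≠ 0 := by positivity
        have := sum_Ioc_inv_sq_le_sub (α := ℝ) hne hle
        refine this.trans ?_
        have : (0 : ℝ) ≤ (((20 * s ^ 10 : ℕ) : ℝ))⁻¹ := by positivity
        linarith
      calc (B2.card : ℝ) ≤ _ := by exact_mod_cast h3
        _ ≤ _ := h4
        _ = (400 * (s : ℝ) ^ 20 / 3) * ∑ x ∈ Finset.Ioc (s ^ 5) (20 * s ^ 10), ((x : ℝ) ^ 2)⁻¹ := by
          rw [Finset.mul_sum]
        _ ≤ (400 * (s : ℝ) ^ 20 / 3) * ((s ^ 5 : ℕ) : ℝ)⁻¹ :=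
          mul_le_mul_of_nonneg_left h5 (by positivity)
        _ = 400 / 3 * (s : ℝ) ^ 15 := by
          push_cast
          field_simp
        _ ≤ 134 * (s : ℝ) ^ 15 := by
          have : (0 : ℝ) < (s : ℝ) ^ 15 := by positivity
          nlinarith
    calc (((B1 ∪ B2).card : ℕ) : ℝ) ≤ ((B1.card + B2.card : ℕ) : ℝ) := by
          exact_mod_cast Finset.card_union_le _ _
      _ ≤ _ := by push_cast; linarith
  · intro x z hx hz h
    lift x to ℕ using hx.le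
    lift z to ℕ using hz.le
    have hx' : 0 < x := by exact_mod_cast hx
    have hz' : 0 < z := by exact_mod_cast hz
    have h' : 2 * x ^ 2 + z ^ 2 + 3 * x ^ 2 * z ≤ 400 * s ^ 20 := by exact_mod_cast h
    have hxs : x ≤ 20 * s ^ 10 := by
      by_contra hlt
      push Not at hlt
      have : (20 * s ^ 10) ^ 2 < x ^ 2 := Nat.pow_lt_pow_left hlt (by norm_num)
      have h2 : (20 * s ^ 10) ^ 2 = 400 * s ^ 20 := by ring
      nlinarith [Nat.zero_le (x ^ 2 * z)]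
    have hzs : z ≤ 20 * s ^ 10 := by
      by_contra hlt
      push Not at hlt
      have : (20 * s ^ 10) ^ 2 < z ^ 2 := Nat.pow_lt_pow_left hlt (by norm_num)
      have h2 : (20 * s ^ 10) ^ 2 = 400 * s ^ 20 := by ring
      nlinarith [Nat.zero_le (x ^ 2 * z)]
    rw [Finset.mem_union]
    rcases le_or_gt x (s ^ 5) with hc | hc
    · left
      rw [hB1, Finset.mem_image]
      exact ⟨(x, z), by simp only [Finset.mem_product, Finset.mem_Icc]; exact ⟨⟨hx', hc⟩, hz', hzs⟩,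
        rfl⟩
    · right
      rw [hB2, Finset.mem_image]
      refine ⟨⟨x, z⟩, ?_, rfl⟩
      rw [Finset.mem_sigma, Finset.mem_Ioc, Finset.mem_Icc]
      refine ⟨⟨hc, hxs⟩, hz', ?_⟩
      simp only
      rw [Nat.le_div_iff_mul_le (by positivity)]
      nlinarith [Nat.zero_le (x ^ 2), Nat.zero_le (z ^ 2)]

/-- the values -/
def val (u v : ℤ) : ℤ := 1 + (9 * u + 1) ^ 2 + (9 * v + 1) ^ 2 + 3 * (9 * u + 1) * (9 * v + 1)

/-- `N = 2y+3z` -/
def NN (u v : ℤ) : ℤ := 2 * (9 * u + 1) + 3 * (9 * v + 1)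

lemma val_eq (u v : ℤ) : 4 * val u v = 4 + NN u v ^ 2 - 5 * (9 * v + 1) ^ 2 := by
  unfold val NN; ring

lemma exists_good (s : ℕ) (hs : 155 ≤ s) : ∃ u v : ℤ, (s : ℤ) ^ 10 ≤ u ∧ 1 ≤ v ∧
    ∀ x z : ℤ, 0 < x → 0 < z → 2 * x ^ 2 + z ^ 2 + 3 * x ^ 2 * z ≠ val u v := by
  classical
  obtain ⟨B, hBcard, hB⟩ := card_B s (by omega)
  set U : Finset ℤ := Finset.Ico ((s : ℤ) ^ 10) (2 * (s : ℤ) ^ 10) with hU
  set V : Finset ℤ := Finset.Icc 1 ((s : ℤ) ^ 6) with hV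
  set A : Finset (ℤ × ℤ) := U ×ˢ V with hA
  set H : Finset ℤ := Finset.Icc (-(14 * (s : ℤ) ^ 2)) (14 * (s : ℤ) ^ 2) with hH
  set bad : Finset (ℤ × ℤ) := A.filter (fun p => ∃ q ∈ A, q ≠ p ∧ val q.1 q.2 = val p.1 p.2)
    with hbad
  have hs1 : (155 : ℤ) ≤ s := by exact_mod_cast hs
  have hs0 : (0 : ℤ) < s := by linarith
  have hUcard : (U.card : ℤ) = (s : ℤ) ^ 10 := by
    rw [hU, Int.card_Ico]
    have : (2 * (s : ℤ) ^ 10 - (s : ℤ) ^ 10) = (s : ℤ) ^ 10 := by ring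
    rw [this, Int.toNat_of_nonneg (by positivity)]
  have hVcard : (V.card : ℤ) = (s : ℤ) ^ 6 := by
    rw [hV, Int.card_Icc]
    have : ((s : ℤ) ^ 6 + 1 - 1) = (s : ℤ) ^ 6 := by ring
    rw [this, Int.toNat_of_nonneg (by positivity)]
  have hHcard : (H.card : ℤ) = 28 * (s : ℤ) ^ 2 + 1 := by
    rw [hH, Int.card_Icc]
    have : (14 * (s : ℤ) ^ 2 + 1 - -(14 * (s : ℤ) ^ 2)) = 28 * (s : ℤ) ^ 2 + 1 := by ring
    rw [this, Int.toNat_of_nonneg (by positivity)]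
  -- facts on coincidences
  have key : ∀ p ∈ A, ∀ q ∈ A, q ≠ p → val q.1 q.2 = val p.1 p.2 →
      NN p.1 p.2 - NN q.1 q.2 ≠ 0 ∧ NN p.1 p.2 - NN q.1 q.2 ∈ H ∧
      (NN p.1 p.2 - NN q.1 q.2) * (NN p.1 p.2 + NN q.1 q.2) =
        5 * ((9 * p.2 + 1) ^ 2 - (9 * q.2 + 1) ^ 2) := by
    rintro ⟨u, v⟩ hp ⟨u', v'⟩ hq hne heq
    simp only [hA, hU, hV, Finset.mem_product, Finset.mem_Ico, Finset.mem_Icc] at hp hq
    simp only at heq ⊢
    obtain ⟨⟨hu1, hu2⟩, hv1, hv2⟩ := hp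
    obtain ⟨⟨hu1', hu2'⟩, hv1', hv2'⟩ := hq
    have e1 := val_eq u v
    have e2 := val_eq u' v'
    have e3 : (NN u v - NN u' v') * (NN u v + NN u' v') =
        5 * ((9 * v + 1) ^ 2 - (9 * v' + 1) ^ 2) := by
      have : NN u v ^ 2 - NN u' v' ^ 2 = 5 * ((9 * v + 1) ^ 2 - (9 * v' + 1) ^ 2) := by
        linarith
      linarith [this, sq_sub_sq (NN u v) (NN u' v'), mul_comm (NN u v + NN u' v') (NN u v - NN u' v')]
    have hS : (0 : ℤ) < (s : ℤ) ^ 10 := by positivity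
    have hsum : 36 * (s : ℤ) ^ 10 ≤ NN u v + NN u' v' := by
      unfold NN; nlinarith
    have hz : (9 * v + 1) ^ 2 ≤ 100 * (s : ℤ) ^ 12 := by
      have h6 : 1 ≤ (s : ℤ) ^ 6 := one_le_pow₀ (by linarith)
      have h10 : 9 * v + 1 ≤ 10 * (s : ℤ) ^ 6 := by linarith
      calc (9 * v + 1) ^ 2 ≤ (10 * (s : ℤ) ^ 6) ^ 2 := by
            apply pow_le_pow_left₀ (by linarith) h10
        _ = _ := by ring
    have hz' : (9 * v' + 1) ^ 2 ≤ 100 * (s : ℤ) ^ 12 := by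
      have h6 : 1 ≤ (s : ℤ) ^ 6 := one_le_pow₀ (by linarith)
      have h10 : 9 * v' + 1 ≤ 10 * (s : ℤ) ^ 6 := by linarith
      calc (9 * v' + 1) ^ 2 ≤ (10 * (s : ℤ) ^ 6) ^ 2 := by
            apply pow_le_pow_left₀ (by linarith) h10
        _ = _ := by ring
    refine ⟨?_, ?_, e3⟩
    · intro h0
      rw [h0, zero_mul] at e3
      have h1 : (9 * v + 1) ^ 2 = (9 * v' + 1) ^ 2 := by linarith
      have h2 : 9 * v + 1 = 9 * v' + 1 := by
        exact (pow_left_inj₀ (by linarith) (by linarith) (by norm_num)).1 h1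
      have h3 : v = v' := by linarith
      have h4 : u = u' := by
        unfold NN at h0; rw [h3] at h0; linarith
      apply hne
      rw [h3, h4]
    · rw [hH, Finset.mem_Icc]
      have hS2 : (s : ℤ) ^ 12 = (s : ℤ) ^ 10 * (s : ℤ) ^ 2 := by ring
      have hs2 : (0 : ℤ) < (s : ℤ) ^ 2 := by positivity
      constructor
      · by_contra hlt
        push Not at hlt
        have h1 : (NN u v - NN u' v') * (NN u v + NN u' v') ≤
            (-(14 * (s : ℤ) ^ 2)) * (36 * (s : ℤ) ^ 10) := by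
          have : (14 * (s : ℤ) ^ 2) * (36 * (s : ℤ) ^ 10) ≤
              (-(NN u v - NN u' v')) * (NN u v + NN u' v') := by
            apply mul_le_mul (by linarith) hsum (by positivity) (by linarith)
          linarith
        have h2 : (0 : ℤ) < (s : ℤ) ^ 12 := by positivity
        nlinarith [sq_nonneg (9 * v + 1)]
      · by_contra hlt
        push Not at hlt
        have h1 : (14 * (s : ℤ) ^ 2) * (36 * (s : ℤ) ^ 10) ≤
              (NN u v - NN u' v') * (NN u v + NN u' v') := by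
            apply mul_le_mul (by linarith) hsum (by positivity) (by linarith)
        have h2 : (0 : ℤ) < (s : ℤ) ^ 12 := by positivity
        nlinarith [sq_nonneg (9 * v' + 1)]
  -- card of bad
  have hbadcard : (bad.card : ℤ) ≤ 29 * (s : ℤ) ^ 14 := by
    have hch : ∀ p ∈ bad, ∃ q ∈ A, q ≠ p ∧ val q.1 q.2 = val p.1 p.2 := by
      intro p hp
      rw [hbad, Finset.mem_filter] at hp
      exact hp.2
    choose! g hgA hgne hgval using hch
    have hle : bad.card ≤ (V ×ˢ V ×ˢ H).card := by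
      apply Finset.card_le_card_of_injOn
        (fun p => (p.2, (g p).2, NN p.1 p.2 - NN (g p).1 (g p).2))
      · intro p hp
        have hp' : p ∈ bad := hp
        have hpA : p ∈ A := (Finset.mem_filter.1 hp').1
        have hq := hgA p hp'
        simp only [Finset.coe_product, Set.mem_prod, Finset.mem_coe]
        refine ⟨(Finset.mem_product.1 hpA).2, (Finset.mem_product.1 hq).2, ?_⟩
        exact (key p hpA _ hq (hgne p hp') (hgval p hp')).2.1
      · intro p hp q hq hpq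
        have hp' : p ∈ bad := hp
        have hq' : q ∈ bad := hq
        have hpA : p ∈ A := (Finset.mem_filter.1 hp').1
        have hqA : q ∈ A := (Finset.mem_filter.1 hq').1
        simp only [Prod.mk.injEq] at hpq
        obtain ⟨h1, h2, h3⟩ := hpq
        obtain ⟨k1, -, k3⟩ := key p hpA _ (hgA p hp') (hgne p hp') (hgval p hp')
        obtain ⟨l1, -, l3⟩ := key q hqA _ (hgA q hq') (hgne q hq') (hgval q hq')
        rw [h1, h2] at h3 k3
        rw [← l3, h3] at k3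
        have k4 := mul_left_cancel₀ l1 k3
        have h5 : NN p.1 q.2 = NN q.1 q.2 := by linarith
        unfold NN at h5
        have h6 : p.1 = q.1 := by linarith
        exact Prod.ext h6 h1
    have h1 : (bad.card : ℤ) ≤ ((s : ℤ) ^ 6) * ((s : ℤ) ^ 6 * (28 * (s : ℤ) ^ 2 + 1)) := by
      calc (bad.card : ℤ) ≤ ((V ×ˢ V ×ˢ H).card : ℤ) := by exact_mod_cast hle
        _ = _ := by
          rw [Finset.card_product, Finset.card_product]
          push_cast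
          rw [hVcard, hHcard]
    have h2 : 1 ≤ (s : ℤ) ^ 2 := one_le_pow₀ (by linarith)
    have h3 : (0 : ℤ) < (s : ℤ) ^ 12 := by positivity
    nlinarith
  -- good
  set G : Finset (ℤ × ℤ) := A \ bad with hG
  have hGcard : (s : ℤ) ^ 16 - 29 * (s : ℤ) ^ 14 ≤ (G.card : ℤ) := by
    have hsub : bad ⊆ A := Finset.filter_subset _ _
    have h1 : G.card + bad.card = A.card := Finset.card_sdiff_add_card_eq_card hsub
    have h2 : (A.card : ℤ) = (s : ℤ) ^ 16 := by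
      rw [hA, Finset.card_product]; push_cast; rw [hUcard, hVcard]; ring
    have h3 : (G.card : ℤ) + bad.card = A.card := by exact_mod_cast h1
    linarith
  have hinj : Set.InjOn (fun p : ℤ × ℤ => val p.1 p.2) (G : Set (ℤ × ℤ)) := by
    intro p hp q hq hpq
    by_contra hne
    have hp' : p ∈ G := hp
    have hq' : q ∈ G := hq
    rw [hG, Finset.mem_sdiff] at hp' hq'
    apply hp'.2
    rw [hbad, Finset.mem_filter]
    exact ⟨hp'.1, q, hq'.1, fun h => hne h.symm, hpq.symm⟩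
  have himg : (G.image (fun p : ℤ × ℤ => val p.1 p.2)).card = G.card :=
    Finset.card_image_of_injOn hinj
  have hlt : B.card < (G.image (fun p : ℤ × ℤ => val p.1 p.2)).card := by
    rw [himg]
    have h1 : (B.card : ℝ) < (G.card : ℝ) := by
      have h2 : ((s : ℝ) ^ 16 - 29 * (s : ℝ) ^ 14) ≤ (G.card : ℝ) := by exact_mod_cast hGcard
      have hsr : (155 : ℝ) ≤ s := by exact_mod_cast hs
      have h3 : (0 : ℝ) < (s : ℝ) ^ 14 := by positivity
      have h4 : (s : ℝ) ^ 15 = s * (s : ℝ) ^ 14 := by ring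
      have h5 : (s : ℝ) ^ 16 = s * (s * (s : ℝ) ^ 14) := by ring
      have h6 : 155 * (s : ℝ) ^ 14 ≤ s * (s : ℝ) ^ 14 := by nlinarith
      have h7 : 155 * (s * (s : ℝ) ^ 14) ≤ s * (s * (s : ℝ) ^ 14) := by nlinarith
      rw [h4] at hBcard
      rw [h5] at h2
      linarith
    exact_mod_cast h1
  obtain ⟨m, hm, hmB⟩ := Finset.exists_mem_notMem_of_card_lt_card hlt
  rw [Finset.mem_image] at hm
  obtain ⟨⟨u, v⟩, hp, rfl⟩ := hm
  have hpA : (u, v) ∈ A := (Finset.mem_sdiff.1 hp).1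
  simp only [hA, hU, hV, Finset.mem_product, Finset.mem_Ico, Finset.mem_Icc] at hpA
  obtain ⟨⟨hu1, hu2⟩, hv1, hv2⟩ := hpA
  refine ⟨u, v, hu1, hv1, ?_⟩
  intro x z hx hz heq
  apply hmB
  simp only
  rw [← heq]
  apply hB x z hx hz
  rw [heq]
  unfold val
  have h6 : 1 ≤ (s : ℤ) ^ 6 := one_le_pow₀ (by linarith)
  have h4 : 155 ≤ (s : ℤ) ^ 4 := by
    calc (155 : ℤ) ≤ s := hs1
      _ ≤ (s : ℤ) ^ 4 := le_self_pow₀ (by linarith) (by norm_num)
  have hz1 : 9 * v + 1 ≤ 10 * (s : ℤ) ^ 6 := by linarith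
  have hy1 : 9 * u + 1 ≤ 18 * (s : ℤ) ^ 10 := by linarith
  have hu0 : 0 ≤ 9 * u + 1 := by
    have : (0 : ℤ) < (s : ℤ) ^ 10 := by positivity
    linarith
  have hy2 : (9 * u + 1) ^ 2 ≤ 324 * (s : ℤ) ^ 20 := by
    calc (9 * u + 1) ^ 2 ≤ (18 * (s : ℤ) ^ 10) ^ 2 := pow_le_pow_left₀ hu0 hy1 2
      _ = _ := by ring
  have hz2 : (9 * v + 1) ^ 2 ≤ 100 * (s : ℤ) ^ 12 := by
    calc (9 * v + 1) ^ 2 ≤ (10 * (s : ℤ) ^ 6) ^ 2 := pow_le_pow_left₀ (by linarith) hz1 2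
      _ = _ := by ring
  have hyz : (9 * u + 1) * (9 * v + 1) ≤ 180 * (s : ℤ) ^ 16 := by
    calc (9 * u + 1) * (9 * v + 1) ≤ (18 * (s : ℤ) ^ 10) * (10 * (s : ℤ) ^ 6) :=
          mul_le_mul hy1 hz1 (by linarith) (by positivity)
      _ = _ := by ring
  have h12 : 1 ≤ (s : ℤ) ^ 12 := one_le_pow₀ (by linarith)
  have h16 : (s : ℤ) ^ 12 ≤ (s : ℤ) ^ 16 := pow_le_pow_right₀ (by linarith) (by norm_num)
  have h20 : 155 * (s : ℤ) ^ 16 ≤ (s : ℤ) ^ 20 := by
    have : (s : ℤ) ^ 20 = (s : ℤ) ^ 4 * (s : ℤ) ^ 16 := by ring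
    rw [this]
    exact mul_le_mul_of_nonneg_right h4 (by positivity)
  nlinarith

end Pool.Agent.R518.Markoff3
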